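import Mathlib

/-!
Domino tilings of `ℤ³ = ℤ × ℤ²` (time and plane) seen as histories of an exclusion process.
-/

namespace Pool.Agent.H47.Dom

/-- The six directions: `U`, `D` in the time direction, the others lateral. -/
inductive Dr
  | U | D | E | W | N | S
deriving DecidableEq

abbrev P2 := ℤ × ℤ
abbrev P3 := ℤ × P2

/-- lateral part of a direction -/
def Dr.lv : Dr → P2
  | .U => 0
  | .D => 0
  | .E => (1, 0)
  | .W => (-1, 0)
  | .N => (0, 1)
  | .S => (0, -1)

/-- time part of a direction -/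
def Dr.tv : Dr → ℤ
  | .U => 1
  | .D => -1
  | .E => 0
  | .W => 0
  | .N => 0
  | .S => 0

def Dr.opp : Dr → Dr
  | .U => .D
  | .D => .U
  | .E => .W
  | .W => .E
  | .N => .S
  | .S => .N

/-- the direction is lateral -/
def Dr.Lat (d : Dr) : Prop := d ≠ .U ∧ d ≠ .D

instance (d : Dr) : Decidable d.Lat := by unfold Dr.Lat; infer_instance

/-- `x` encodes a domino tiling of `ℤ³` -/
def IsT (x : P3 → Dr) : Prop :=
  ∀ t u, x (t + (x (t, u)).tv, u + (x (t, u)).lv) = (x (t, u)).opp

/-- sign -/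
def sg (n : ℤ) : ℤ := (n.negOnePow : ℤ)

lemma sg_add (m n : ℤ) : sg (m + n) = sg m * sg n := by
  simp [sg, Int.negOnePow_add]

lemma sg_one : sg 1 = -1 := by simp [sg]

lemma sg_zero : sg 0 = 1 := by simp [sg]

lemma sg_mul_self (n : ℤ) : sg n * sg n = 1 := by
  simp [sg]

lemma sg_or (n : ℤ) : sg n = 1 ∨ sg n = -1 := by
  have := Int.units_eq_one_or n.negOnePow
  rcases this with h | h <;> simp [sg, h]

lemma sg_succ (n : ℤ) : sg (n + 1) = - sg n := by rw [sg_add, sg_one]; ring

lemma sg_neg (n : ℤ) : sg (-n) = sg n := by simp [sg, Int.negOnePow_neg]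

lemma sg_sub (m n : ℤ) : sg (m - n) = sg m * sg n := by
  rw [sub_eq_add_neg, sg_add, sg_neg]

/-- the state of the exclusion process just before layer `t`, at the site `u` -/
def st (x : P3 → Dr) (t : ℤ) (u : P2) : ℤ :=
  sg (t + u.1 + u.2) * (if x (t, u) = .D then 1 else -1)

lemma st_or (x : P3 → Dr) (t : ℤ) (u : P2) : st x t u = 1 ∨ st x t u = -1 := by
  unfold st
  rcases sg_or (t + u.1 + u.2) with h | h <;> rw [h] <;> split_ifs <;> simp

lemma st_eq_iff (x y : P3 → Dr) (t : ℤ) (u : P2) :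
    st x t u = st y t u ↔ (x (t, u) = .D ↔ y (t, u) = .D) := by
  unfold st
  rcases sg_or (t + u.1 + u.2) with h | h <;> rw [h] <;>
    by_cases h1 : x (t, u) = .D <;> by_cases h2 : y (t, u) = .D <;> simp [h1, h2]

lemma isT_U {x : P3 → Dr} (hx : IsT x) {t : ℤ} {u : P2} (h : x (t, u) = .U) :
    x (t + 1, u) = .D := by
  have := hx t u
  rw [h] at this
  simpa [Dr.tv, Dr.lv, Dr.opp] using this

lemma isT_D {x : P3 → Dr} (hx : IsT x) {t : ℤ} {u : P2} (h : x (t, u) = .D) :
    x (t - 1, u) = .U := by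
  have := hx t u
  rw [h] at this
  simpa [Dr.tv, Dr.lv, Dr.opp, sub_eq_add_neg] using this

lemma isT_D' {x : P3 → Dr} (hx : IsT x) {t : ℤ} {u : P2} (h : x (t + 1, u) = .D) :
    x (t, u) = .U := by
  simpa using isT_D hx h

lemma isT_L {x : P3 → Dr} (hx : IsT x) {t : ℤ} {u : P2} (h : (x (t, u)).Lat) :
    x (t, u + (x (t, u)).lv) = (x (t, u)).opp := by
  have := hx t u
  have h0 : (x (t, u)).tv = 0 := by
    unfold Dr.Lat at h
    cases hd : x (t, u) <;> simp_all [Dr.tv]
  rw [h0] at this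
  simpa using this

lemma isT_of {x : P3 → Dr} (hU : ∀ t u, x (t, u) = .U → x (t + 1, u) = .D)
    (hD : ∀ t u, x (t, u) = .D → x (t - 1, u) = .U)
    (hL : ∀ t u, (x (t, u)).Lat → x (t, u + (x (t, u)).lv) = (x (t, u)).opp) : IsT x := by
  intro t u
  by_cases h1 : x (t, u) = .U
  · rw [h1]; simpa [Dr.tv, Dr.lv, Dr.opp] using hU t u h1
  by_cases h2 : x (t, u) = .D
  · rw [h2]
    simpa [Dr.tv, Dr.lv, Dr.opp, sub_eq_add_neg] using hD t u h2
  · have h3 : (x (t, u)).Lat := ⟨h1, h2⟩
    have h0 : (x (t, u)).tv = 0 := by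
      cases hd : x (t, u) <;> simp_all [Dr.tv]
    rw [h0]
    simpa using hL t u h3

/-- the state does not change at a site not covered by a lateral domino -/
lemma st_succ {x : P3 → Dr} (hx : IsT x) {t : ℤ} {u : P2} (h : ¬ (x (t, u)).Lat) :
    st x (t + 1) u = st x t u := by
  have e : sg (t + 1 + u.1 + u.2) = - sg (t + u.1 + u.2) := by
    rw [← sg_succ]; ring_nf
  unfold st
  rw [e]
  by_cases h1 : x (t, u) = .D
  · have h2 : x (t + 1, u) ≠ .D := by
      intro h3
      have := isT_D' hx h3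
      rw [h1] at this
      exact Dr.noConfusion this
    rw [if_pos h1, if_neg h2]; ring
  · have h2 : x (t, u) = .U := by
      unfold Dr.Lat at h
      by_contra h3
      exact h ⟨h3, h1⟩
    rw [if_pos (isT_U hx h2), if_neg h1]; ring

/-- the state is constant on a time interval without lateral dominoes -/
lemma st_const {x : P3 → Dr} (hx : IsT x) {t t' : ℤ} (htt : t ≤ t') {u : P2}
    (h : ∀ r, t ≤ r → r < t' → ¬ (x (r, u)).Lat) :
    st x t' u = st x t u := by
  obtain ⟨n, rfl⟩ : ∃ n : ℕ, t' = t + n := by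
    obtain ⟨n, hn⟩ := Int.eq_ofNat_of_zero_le (sub_nonneg.2 htt)
    exact ⟨n, by omega⟩
  induction n with
  | zero => simp
  | succ n ih =>
    have h1 : st x (t + (n : ℤ)) u = st x t u :=
      ih (by omega) (fun r h2 h3 => h r h2 (by push_cast; omega))
    have h4 : t + ((n + 1 : ℕ) : ℤ) = t + n + 1 := by push_cast; ring
    rw [h4, st_succ hx, h1]
    exact h _ (by omega) (by push_cast; omega)

/-- the passive tiling of a state -/
noncomputable def pas (ψ : P2 → ℤ) : P3 → Dr := fun v =>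
  if sg (v.1 + v.2.1 + v.2.2) * ψ v.2 = 1 then .D else .U

/-- states have values ±1 -/
def IsS (ψ : P2 → ℤ) : Prop := ∀ u, ψ u = 1 ∨ ψ u = -1

lemma st_pas {ψ : P2 → ℤ} (hψ : IsS ψ) (t : ℤ) (u : P2) : st (pas ψ) t u = ψ u := by
  unfold st pas
  simp only
  rcases sg_or (t + u.1 + u.2) with h | h <;> rcases hψ u with h' | h' <;> rw [h, h'] <;> simp

lemma pas_not_lat (ψ : P2 → ℤ) (v : P3) : ¬ (pas ψ v).Lat := by
  unfold pas Dr.Lat
  split_ifs <;> simp

lemma pas_eq_D {ψ : P2 → ℤ} (t : ℤ) (u : P2) :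
    pas ψ (t, u) = .D ↔ sg (t + u.1 + u.2) * ψ u = 1 := by
  unfold pas
  simp only
  split_ifs with h <;> simp [h]

lemma pas_eq_U {ψ : P2 → ℤ} (t : ℤ) (u : P2) :
    pas ψ (t, u) = .U ↔ ¬ (sg (t + u.1 + u.2) * ψ u = 1) := by
  unfold pas
  simp only
  split_ifs with h <;> simp [h]

lemma pas_isT {ψ : P2 → ℤ} (hψ : IsS ψ) : IsT (pas ψ) := by
  apply isT_of
  · intro t u h
    rw [pas_eq_U] at h
    rw [pas_eq_D]
    have e : sg (t + 1 + u.1 + u.2) = - sg (t + u.1 + u.2) := by
      rw [← sg_succ]; ring_nf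
    rw [e]
    rcases sg_or (t + u.1 + u.2) with h1 | h1 <;> rcases hψ u with h' | h' <;>
      rw [h1, h'] at h <;> rw [h1, h'] <;> simp_all
  · intro t u h
    rw [pas_eq_D] at h
    rw [pas_eq_U]
    have e : sg (t + u.1 + u.2) = - sg (t - 1 + u.1 + u.2) := by
      rw [← sg_succ]; ring_nf
    rw [e] at h
    rcases sg_or (t - 1 + u.1 + u.2) with h1 | h1 <;> rcases hψ u with h' | h' <;>
      rw [h1, h'] at h <;> rw [h1, h'] <;> simp_all
  · intro t u h
    exact absurd h (pas_not_lat ψ _)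

/-- `Reach B t n ψ ψ'`: in `n` time steps from time `t` the state `ψ` can be turned
into `ψ'` with lateral dominoes inside `B` only. -/
def Reach (B : P2 → Prop) (t n : ℤ) (ψ ψ' : P2 → ℤ) : Prop :=
  ∃ x : P3 → Dr, IsT x ∧
    (∀ r u, (x (r, u)).Lat → t ≤ r ∧ r < t + n ∧ B u ∧ B (u + (x (r, u)).lv)) ∧
    (∀ r u, r ≤ t → st x r u = ψ u) ∧ (∀ r u, t + n ≤ r → st x r u = ψ' u)

lemma reach_refl {B : P2 → Prop} {t n : ℤ} {ψ : P2 → ℤ} (hψ : IsS ψ) :
    Reach B t n ψ ψ :=
  ⟨pas ψ, pas_isT hψ, fun _ _ h => absurd h (pas_not_lat ψ _),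
    fun _ _ _ => st_pas hψ _ _, fun _ _ _ => st_pas hψ _ _⟩

lemma reach_trans {B : P2 → Prop} {t n m : ℤ} {ψ ψ' ψ'' : P2 → ℤ} (hn : 0 ≤ n) (hm : 0 ≤ m)
    (h1 : Reach B t n ψ ψ') (h2 : Reach B (t + n) m ψ' ψ'') :
    Reach B t (n + m) ψ ψ'' := by
  obtain ⟨x, hxT, hxL, hx0, hx1⟩ := h1
  obtain ⟨y, hyT, hyL, hy0, hy1⟩ := h2
  have key : ∀ u, (x (t + n, u) = .D ↔ y (t + n, u) = .D) := by
    intro u
    rw [← st_eq_iff, hx1 _ u le_rfl, hy0 _ u le_rfl]
  have key2 : ∀ u, (x (t + n - 1, u) = .U ↔ y (t + n - 1, u) = .U) := by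
    intro u
    constructor
    · intro h
      have := isT_U hxT h
      rw [sub_add_cancel] at this
      exact isT_D hyT ((key u).1 this)
    · intro h
      have := isT_U hyT h
      rw [sub_add_cancel] at this
      exact isT_D hxT ((key u).2 this)
  refine ⟨fun v => if v.1 < t + n then x v else y v, ?_, ?_, ?_, ?_⟩
  · apply isT_of
    · intro r u h
      simp only at h ⊢
      by_cases hr : r < t + n
      · rw [if_pos hr] at h
        have h' := isT_U hxT h
        by_cases hr' : r + 1 < t + n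
        · rw [if_pos hr']; exact h'
        · rw [if_neg hr']
          have e : r + 1 = t + n := by omega
          rw [e] at h' ⊢
          exact (key u).1 h'
      · rw [if_neg hr] at h
        rw [if_neg (by omega)]
        exact isT_U hyT h
    · intro r u h
      simp only at h ⊢
      by_cases hr : r < t + n
      · rw [if_pos hr] at h
        rw [if_pos (by omega)]
        exact isT_D hxT h
      · rw [if_neg hr] at h
        have h' := isT_D hyT h
        by_cases hr' : r - 1 < t + n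
        · rw [if_pos hr']
          have e : r = t + n := by omega
          subst e
          exact (key2 u).2 h'
        · rw [if_neg hr']; exact h'
    · intro r u h
      simp only at h ⊢
      by_cases hr : r < t + n
      · simp only [if_pos hr] at h ⊢
        exact isT_L hxT h
      · simp only [if_neg hr] at h ⊢
        exact isT_L hyT h
  · intro r u h
    simp only at h ⊢
    by_cases hr : r < t + n
    · simp only [if_pos hr] at h ⊢
      obtain ⟨a, b, c, d⟩ := hxL r u h
      exact ⟨a, by omega, c, d⟩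
    · simp only [if_neg hr] at h ⊢
      obtain ⟨a, b, c, d⟩ := hyL r u h
      exact ⟨by omega, by omega, c, d⟩
  · intro r u hr
    by_cases hr' : r < t + n
    · rw [← hx0 r u hr]
      rw [st_eq_iff]
      simp [hr']
    · have e : r = t + n := by omega
      rw [← hx0 r u hr, st_eq_iff, e]
      simp [key u]
  · intro r u hr
    rw [← hy1 r u (by omega), st_eq_iff]
    have : ¬ (r < t + n) := by omega
    simp [this]

lemma reach_mono {B : P2 → Prop} {t n m : ℤ} {ψ ψ' : P2 → ℤ} (hn : 0 ≤ n) (hm : n ≤ m)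
    (hψ' : IsS ψ') (h1 : Reach B t n ψ ψ') : Reach B t m ψ ψ' := by
  have := reach_trans (m := m - n) hn (by omega) h1 (reach_refl hψ')
  simpa using this

end Pool.Agent.H47.Dom
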