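import Pool.Agent.H47.Dom.Patch

/-!
The gluing theorem.
-/

namespace Pool.Agent.H47.Dom

/-- closed box inequality -/
def Bx (r : ℤ) (v w : P3) : Prop :=
  (-r ≤ v.1 - w.1 ∧ v.1 - w.1 ≤ r) ∧ (-r ≤ v.2.1 - w.2.1 ∧ v.2.1 - w.2.1 ≤ r) ∧
    (-r ≤ v.2.2 - w.2.2 ∧ v.2.2 - w.2.2 ≤ r)

/-- `v` is within `r` of the set `A` -/
def Nr (A : Set P3) (r : ℤ) (v : P3) : Prop := ∃ w ∈ A, Bx r w v

lemma nr_step {A : Set P3} {r r' s : ℤ} {v w : P3} (h : Nr A r v) (hb : Bx s v w)
    (hr : r + s ≤ r') : Nr A r' w := by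
  obtain ⟨a, ha, hav⟩ := h
  refine ⟨a, ha, ?_⟩
  unfold Bx at *
  omega

lemma nr_mono {A : Set P3} {r r' : ℤ} {v : P3} (h : Nr A r v) (hr : r ≤ r') : Nr A r' v := by
  obtain ⟨a, ha, hav⟩ := h
  refine ⟨a, ha, ?_⟩
  unfold Bx at *
  omega

lemma conf_bx {P : Par} {v w : P3} (h : Conf P v w) : Bx (3 * P.τ) v w := by
  have k1 := P.hκ
  have k2 := P.ha'
  have k3 := P.hτ
  unfold Conf nr at h
  unfold Bx
  rcases h with h | h <;> omega

lemma st_piece {P : Par} {C : Set P3} (hC : Mis P C) {x : P3 → Dr} (hx : IsT x)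
    (hL : LatRule P C x) {c c' : P3} (hc : c ∈ C) (hc' : c' ∈ C) {u : P2}
    (h : Piece P C c c' u) : st x c'.1 u = st x (c.1 + P.a) u := by
  have k1 := P.hκ
  have k2 := P.ha'
  apply st_const hx (piece_sep hC hc hc' h)
  intro r h1 h2 h3
  obtain ⟨d, hd, h4, h5, h6, _⟩ := hL r u h3
  exact h.2.2.2 d hd (by omega) (by omega) h6

lemma sum_over_last {P : Par} {C : Set P3} (hC : Mis P C) {c : P3}
    (f g : P3 → P2 → ℤ)
    (h : ∀ b ∈ C, ∑ u ∈ piece P C b c, f b u = ∑ u ∈ piece P C b c, g b u) :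
    ∑ u ∈ sqF (4 * P.κ) c.2, f (lst C (4 * P.κ) c.1 u) u =
      ∑ u ∈ sqF (4 * P.κ) c.2, g (lst C (4 * P.κ) c.1 u) u := by
  classical
  set T := (sqF (4 * P.κ) c.2).image (fun u => lst C (4 * P.κ) c.1 u) with hT
  have hm : ∀ u ∈ sqF (4 * P.κ) c.2, lst C (4 * P.κ) c.1 u ∈ T :=
    fun u hu => Finset.mem_image_of_mem _ hu
  rw [← Finset.sum_fiberwise_of_maps_to hm, ← Finset.sum_fiberwise_of_maps_to hm]
  apply Finset.sum_congr rfl
  intro b hb
  obtain ⟨u₀, _, hu₀⟩ := Finset.mem_image.1 hb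
  have hbC : b ∈ C := by
    rw [← hu₀]
    exact (lst_spec hC (by omega : 4 * P.κ - 1 ≤ 4 * P.κ) c.1 u₀).1
  have e : (sqF (4 * P.κ) c.2).filter (fun u => lst C (4 * P.κ) c.1 u = b) = piece P C b c := by
    ext u
    rw [Finset.mem_filter, mem_piece, mem_sqF]
    constructor
    · rintro ⟨h1, rfl⟩
      exact piece_of_lst hC h1
    · intro h1
      exact ⟨h1.2.1, lst_of_piece hC hbC h1⟩
  rw [e]
  have h1 : ∀ f' : P3 → P2 → ℤ, ∑ u ∈ piece P C b c, f' (lst C (4 * P.κ) c.1 u) u =
      ∑ u ∈ piece P C b c, f' b u := by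
    intro f'
    apply Finset.sum_congr rfl
    intro u hu
    rw [mem_piece] at hu
    rw [lst_of_piece hC hbC hu]
  rw [h1 f, h1 g]
  exact h b hbC

lemma sum_over_next {P : Par} {C : Set P3} (hC : Mis P C) {c : P3}
    (f g : P2 → ℤ)
    (h : ∀ b ∈ C, ∑ u ∈ piece P C c b, f u = ∑ u ∈ piece P C c b, g u) :
    ∑ u ∈ sqF (4 * P.κ) c.2, f u = ∑ u ∈ sqF (4 * P.κ) c.2, g u := by
  classical
  have hex : ∀ u : P2, ∃ c' : P3, Sq (4 * P.κ) c.2 u → c' ∈ C ∧ Piece P C c c' u := by
    intro u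
    by_cases hu : Sq (4 * P.κ) c.2 u
    · obtain ⟨c', h1, h2⟩ := exists_next hC hu
      exact ⟨c', fun _ => ⟨h1, h2⟩⟩
    · exact ⟨0, fun h => absurd h hu⟩
  choose nx hnx using hex
  set T := (sqF (4 * P.κ) c.2).image nx with hT
  have hm : ∀ u ∈ sqF (4 * P.κ) c.2, nx u ∈ T := fun u hu => Finset.mem_image_of_mem _ hu
  rw [← Finset.sum_fiberwise_of_maps_to hm, ← Finset.sum_fiberwise_of_maps_to hm]
  apply Finset.sum_congr rfl
  intro b hb
  obtain ⟨u₀, hu₀, hb₀⟩ := Finset.mem_image.1 hb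
  rw [mem_sqF] at hu₀
  have hbC : b ∈ C := by
    rw [← hb₀]
    exact (hnx u₀ hu₀).1
  have e : (sqF (4 * P.κ) c.2).filter (fun u => nx u = b) = piece P C c b := by
    ext u
    rw [Finset.mem_filter, mem_piece, mem_sqF]
    constructor
    · rintro ⟨h1, rfl⟩
      exact (hnx u h1).2
    · intro h1
      exact ⟨h1.1, piece_unique_right hC (hnx u h1.1).1 hbC (hnx u h1.1).2 h1⟩
  rw [e]
  exact h b hbC

/-- the gluing theorem, for arbitrary families -/
theorem glue (P : Par) {ι : Type} (x : ι → P3 → Dr) (hx : ∀ i, x i ∈ X0 P) (A : ι → Set P3)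
    (hA : ∀ i j, i ≠ j → ∀ v ∈ A i, ∀ w ∈ A j, ¬ Bx (60 * P.τ) v w) :
    ∃ z ∈ X0 P, ∀ i, ∀ v ∈ A i, z v = x i v := by
  classical
  have k1 := P.hκ
  have k2 := P.ha'
  have k3 := P.hτ
  have hxT : ∀ i, IsT (x i) := fun i => (hx i).1
  have hx' : ∀ i, ∃ C F, Mis P C ∧ Rule P C F ∧ LatRule P C (x i) ∧ Compat P C F (x i) :=
    fun i => (hx i).2
  choose Ci Fi hCi hFi hLi hKi using hx'
  -- uniqueness of the index
  have huniq : ∀ i j v, Nr (A i) (29 * P.τ) v → Nr (A j) (29 * P.τ) v → i = j := by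
    intro i j v hi hj
    by_contra hne
    obtain ⟨a, ha, hav⟩ := hi
    obtain ⟨b, hb, hbv⟩ := hj
    apply hA i j hne a ha b hb
    unfold Bx at *
    omega
  -- the scaffold
  obtain ⟨C, hC0, hC⟩ := exists_mis P {c | ∃ i, c ∈ Ci i ∧ Nr (A i) (27 * P.τ) c} (by
    rintro v ⟨i, hvi, hv⟩ w ⟨j, hwj, hw⟩ hvw
    have hij : i = j := by
      by_contra hne
      obtain ⟨a, ha, hav⟩ := hv
      obtain ⟨b, hb, hbv⟩ := hw
      apply hA i j hne a ha b hb
      have := conf_bx hvw
      unfold Bx at *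
      omega
    subst hij
    exact (hCi i).1 v hvi w hwj hvw)
  have hagree : ∀ i c, Nr (A i) (24 * P.τ) c → (c ∈ C ↔ c ∈ Ci i) := by
    intro i c hc
    constructor
    · intro hcC
      obtain ⟨c', hc', hcc'⟩ := (hCi i).2 c
      have h1 : c' ∈ C := hC0 ⟨i, hc', nr_step hc (conf_bx hcc') (by omega)⟩
      rw [hC.1 c hcC c' h1 hcc']
      exact hc'
    · intro hci
      exact hC0 ⟨i, hci, nr_mono hc (by omega)⟩
  -- the face field
  have hFex : ∃ F : ℤ → P2 → Val, Rule P C F ∧
      ∀ i t p, Nr (A i) (15 * P.τ) (t, p) → F t p = Fi i t p := by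
    have hdef : ∀ (L : P3) (p : P2), ∃ y : Val, ∀ i, Nr (A i) (18 * P.τ) L →
        y = Fi i (L.1 + 1) p := by
      intro L p
      by_cases h : ∃ i, Nr (A i) (18 * P.τ) L
      · obtain ⟨i, hi⟩ := h
        refine ⟨Fi i (L.1 + 1) p, fun j hj => ?_⟩
        rw [huniq i j L (nr_mono hi (by omega)) (nr_mono hj (by omega))]
      · exact ⟨((0 : ZMod 2), (1 : ℤˣ)), fun i hi => absurd ⟨i, hi⟩ h⟩
    choose Y hY using hdef
    refine ⟨fun t p => Y (lst C (4 * P.κ - 1) t p) p, ?_, ?_⟩
    · intro t p h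
      simp only
      rw [lst_same hC (by omega) le_rfl h]
    · intro i t p h
      have hs := lst_spec hC (le_refl (4 * P.κ - 1)) t p
      have hg := lst_ge hC (by omega) (le_refl (4 * P.κ - 1)) t p
      set L := lst C (4 * P.κ - 1) t p with hL_def
      have hsq := hs.2.2.1
      have hLt := hs.2.1
      have hLn : Nr (A i) (18 * P.τ) L := by
        apply nr_step h (s := 3 * P.τ) ?_ (by omega)
        unfold Bx
        unfold Sq at hsq
        simp only
        omega
      change Y L p = Fi i t p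
      rw [hY L p i hLn]
      symm
      apply rule_const (hFi i) (by omega)
      intro c hc h1 h2 h3
      have hcn : Nr (A i) (18 * P.τ) c := by
        apply nr_step h (s := 3 * P.τ) ?_ (by omega)
        unfold Bx
        unfold Sq at h3
        simp only
        omega
      have hcC : c ∈ C := (hagree i c (nr_mono hcn (by omega))).2 hc
      have := hs.2.2.2 c hcC h2 h3
      omega
  obtain ⟨F, hF, hFagree⟩ := hFex
  -- pieces agree near `A i`
  have hpiece : ∀ i c c', Nr (A i) (12 * P.τ) c → c ∈ C → c' ∈ C →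
      ∀ u, (Piece P C c c' u ↔ Piece P (Ci i) c c' u) := by
    intro i c c' hcn hc hc' u
    have hmid : ∀ b, Sq (4 * P.κ) c.2 u → Sq (4 * P.κ) b.2 u → c.1 < b.1 →
        b.1 ≤ c.1 + 3 * P.τ → (b ∈ C ↔ b ∈ Ci i) := by
      intro b h1 h2 h3 h4
      apply hagree i b
      apply nr_step hcn (s := 3 * P.τ) ?_ (by omega)
      unfold Bx
      unfold Sq at h1 h2
      omega
    constructor
    · intro h
      have ht := piece_time hC h
      refine ⟨h.1, h.2.1, h.2.2.1, ?_⟩
      intro b hb h1 h2 h3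
      exact h.2.2.2 b ((hmid b h.1 h3 h1 (by omega)).2 hb) h1 h2 h3
    · intro h
      have ht := piece_time (hCi i) h
      refine ⟨h.1, h.2.1, h.2.2.1, ?_⟩
      intro b hb h1 h2 h3
      exact h.2.2.2 b ((hmid b h.1 h3 h1 (by omega)).1 hb) h1 h2 h3
  have hnext : ∀ i c c' u, Nr (A i) (12 * P.τ) c → Piece P C c c' u →
      Nr (A i) (15 * P.τ) c' := by
    intro i c c' u hcn h
    have ht := piece_time hC h
    apply nr_step hcn (s := 3 * P.τ) ?_ (by omega)
    have h1 := h.1
    have h2 := h.2.1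
    have h3 := h.2.2.1
    unfold Bx
    unfold Sq at h1 h2
    omega
  -- the out-states
  have hoex : ∀ c, ∃ o : P2 → ℤ, c ∈ C → (IsS o ∧
      (∀ c' ∈ C, ∑ u ∈ piece P C c c', o u = ∑ u ∈ piece P C c c', pl (F c'.1) u) ∧
      (∀ i, Nr (A i) (9 * P.τ) c → o = st (x i) (c.1 + P.a))) := by
    intro c
    by_cases hc : c ∈ C
    swap
    · exact ⟨0, fun h => absurd h hc⟩
    by_cases hi : ∃ i, Nr (A i) (9 * P.τ) c
    · obtain ⟨i, hi⟩ := hi
      refine ⟨st (x i) (c.1 + P.a), fun _ => ⟨fun u => st_or _ _ _, ?_, ?_⟩⟩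
      · intro c' hc'
        rcases (piece P C c c').eq_empty_or_nonempty with he | ⟨u₀, hu₀⟩
        · rw [he]; simp
        rw [mem_piece] at hu₀
        have hn12 : Nr (A i) (12 * P.τ) c := nr_mono hi (by omega)
        have hc'n := hnext i c c' u₀ hn12 hu₀
        have hc'i : c' ∈ Ci i := (hagree i c' (nr_mono hc'n (by omega))).1 hc'
        have hci : c ∈ Ci i := (hagree i c (nr_mono hi (by omega))).1 hc
        have hpe : piece P C c c' = piece P (Ci i) c c' := by
          ext u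
          rw [mem_piece, mem_piece]
          exact hpiece i c c' hn12 hc hc' u
        have ht := piece_time hC hu₀
        have ht' := hu₀.2.2.1
        rw [hpe]
        rw [← Finset.sum_congr rfl (fun u hu => st_piece (hCi i) (hxT i) (hLi i) hci hc'i
          (mem_piece.1 hu))]
        rw [hKi i c hci c' hc'i]
        apply Finset.sum_congr rfl
        intro u hu
        rw [mem_piece] at hu
        have hq := hu.1
        have key : ∀ p : P2, (p.1 = u.1 ∨ p.1 = u.1 - 1) → (p.2 = u.2 ∨ p.2 = u.2 - 1) →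
            F c'.1 p = Fi i c'.1 p := by
          intro p h1 h2
          apply hFagree
          apply nr_step hi (s := 3 * P.τ) ?_ (by omega)
          unfold Bx
          unfold Sq at hq
          simp only
          omega
        symm
        apply pl_congr <;> apply key <;> simp
      · intro j hj
        rw [huniq i j c (nr_mono hi (by omega)) (nr_mono hj (by omega))]
    · -- choose on each piece
      have hper : ∀ c', ∃ o' : P2 → ℤ, c' ∈ C → (IsS o' ∧
          ∑ u ∈ piece P C c c', o' u = ∑ u ∈ piece P C c c', pl (F c'.1) u) := by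
        intro c'
        by_cases hc' : c' ∈ C
        swap
        · exact ⟨0, fun h => absurd h hc'⟩
        obtain ⟨o', h1, h2⟩ := exists_state (piece P C c c') _
          (pl_piece_abs hC hc hc' (F c'.1)) (pl_piece_parity _ _)
        exact ⟨o', fun _ => ⟨h1, h2⟩⟩
      choose o' ho' using hper
      have hsel : ∀ u : P2, ∃ y : ℤ, (y = 1 ∨ y = -1) ∧
          ∀ c' ∈ C, Piece P C c c' u → y = o' c' u := by
        intro u
        by_cases h : ∃ c' ∈ C, Piece P C c c' u
        · obtain ⟨c', hc', hp⟩ := h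
          refine ⟨o' c' u, (ho' c' hc').1 u, ?_⟩
          intro c'' hc'' hp'
          rw [piece_unique_right hC hc' hc'' hp hp']
        · exact ⟨1, Or.inl rfl, fun c' hc' hp => absurd ⟨c', hc', hp⟩ h⟩
      choose o ho ho2 using hsel
      refine ⟨o, fun _ => ⟨ho, ?_, fun i hi' => absurd ⟨i, hi'⟩ hi⟩⟩
      intro c' hc'
      rw [← (ho' c' hc').2]
      apply Finset.sum_congr rfl
      intro u hu
      exact ho2 u c' hc' (mem_piece.1 hu)
  choose o ho using hoex
  -- totals before and after a room agree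
  have htot : ∀ c ∈ C, ∑ u ∈ sqF (4 * P.κ) c.2, o (lst C (4 * P.κ) c.1 u) u =
      ∑ u ∈ sqF (4 * P.κ) c.2, o c u := by
    intro c hc
    rw [sum_over_last hC o (fun _ => pl (F c.1)) (fun b hb => (ho b hb).2.1 c hc)]
    rw [← pl_conserve hC hF hc]
    symm
    apply sum_over_next hC
    intro b hb
    rw [(ho c hc).2.1 b hb]
    apply Finset.sum_congr rfl
    intro u hu
    rw [mem_piece] at hu
    exact pl_const hF hu (by omega) (piece_sep hC hc hb hu) le_rfl
  -- the tilings to be patched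
  have hXex : ∀ c, ∃ X : P3 → Dr, c ∈ C → (IsT X ∧
      (∀ t u, lst C (4 * P.κ) (t + 1) u = c → (X (t, u)).Lat →
        t < c.1 + P.a ∧ Sq (4 * P.κ) c.2 (u + (X (t, u)).lv)) ∧
      (∀ u, Sq (4 * P.κ) c.2 u → st X c.1 u = o (lst C (4 * P.κ) c.1 u) u) ∧
      (∀ u, ∀ c' ∈ C, Piece P C c c' u → st X c'.1 u = o c u) ∧
      (∀ i, Nr (A i) (3 * P.τ) c → X = x i)) := by
    intro c
    by_cases hc : c ∈ C
    swap
    · exact ⟨fun _ => .U, fun h => absurd h hc⟩
    by_cases hi : ∃ i, Nr (A i) (3 * P.τ) c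
    · obtain ⟨i, hi⟩ := hi
      have hci : c ∈ Ci i := (hagree i c (nr_mono hi (by omega))).1 hc
      refine ⟨x i, fun _ => ⟨hxT i, ?_, ?_, ?_, ?_⟩⟩
      · intro t u hl hlat
        obtain ⟨d, hd, h1, h2, h3, h4⟩ := hLi i t u hlat
        have hs := lst_spec hC (by omega : 4 * P.κ - 1 ≤ 4 * P.κ) (t + 1) u
        have hg := lst_ge hC le_rfl (by omega : 4 * P.κ - 1 ≤ 4 * P.κ) (t + 1) u
        rw [hl] at hs hg
        have hcu := hs.2.2.1
        have hct := hs.2.1
        have hdn : Nr (A i) (9 * P.τ) d := by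
          apply nr_step hi (s := 6 * P.τ) ?_ (by omega)
          unfold Bx
          unfold Sq at h3 hcu
          omega
        have hdC : d ∈ C := (hagree i d (nr_mono hdn (by omega))).2 hd
        have h5 := hs.2.2.2 d hdC (by omega) h3
        have : d = c := eq_of_near hC hdC hc h3 hcu (by unfold nr; omega)
        rw [← this]
        exact ⟨h2, h4⟩
      · intro u hu
        have hs := lst_spec hC (by omega : 4 * P.κ - 1 ≤ 4 * P.κ) c.1 u
        have hg := lst_ge hC le_rfl (by omega : 4 * P.κ - 1 ≤ 4 * P.κ) c.1 u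
        have hp : Piece P C (lst C (4 * P.κ) c.1 u) c u := piece_of_lst hC hu
        set b := lst C (4 * P.κ) c.1 u with hb_def
        have hbt := hs.2.1
        have hbn : Nr (A i) (6 * P.τ) b := by
          apply nr_step hi (s := 3 * P.τ) ?_ (by omega)
          have := hs.2.2.1
          unfold Bx
          unfold Sq at this hu
          omega
        rw [(ho b hs.1).2.2 i (nr_mono hbn (by omega))]
        have hbi : b ∈ Ci i := (hagree i b (nr_mono hbn (by omega))).1 hs.1
        exact st_piece (hCi i) (hxT i) (hLi i) hbi hci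
          ((hpiece i b c (nr_mono hbn (by omega)) hs.1 hc u).1 hp)
      · intro u c' hc' hp
        have hn12 : Nr (A i) (12 * P.τ) c := nr_mono hi (by omega)
        have hc'n := hnext i c c' u hn12 hp
        have hc'i : c' ∈ Ci i := (hagree i c' (nr_mono hc'n (by omega))).1 hc'
        rw [(ho c hc).2.2 i (nr_mono hi (by omega))]
        exact st_piece (hCi i) (hxT i) (hLi i) hci hc'i ((hpiece i c c' hn12 hc hc' u).1 hp)
      · intro j hj
        rw [huniq i j c (nr_mono hi (by omega)) (nr_mono hj (by omega))]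
    · have hspec := fun u => lst_spec hC (by omega : 4 * P.κ - 1 ≤ 4 * P.κ) c.1 u
      obtain ⟨X, hXT, hXL, hX0, hX1⟩ := reach_square (s := 4 * P.κ) (by omega) (q := c.2)
        (t := c.1) (a := P.a) P.ha
        (ψ := fun u => if Sq (4 * P.κ) c.2 u then o (lst C (4 * P.κ) c.1 u) u else 1)
        (ψ' := fun u => if Sq (4 * P.κ) c.2 u then o c u else 1)
        (by
          intro u
          by_cases hu : Sq (4 * P.κ) c.2 u
          · simp only [if_pos hu]; exact (ho _ (hspec u).1).1 u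
          · simp only [if_neg hu]; exact Or.inl trivial)
        (by
          intro u
          by_cases hu : Sq (4 * P.κ) c.2 u
          · simp only [if_pos hu]; exact (ho _ hc).1 u
          · simp only [if_neg hu]; exact Or.inl trivial)
        (by
          intro u hu
          simp only [if_neg hu])
        (by
          have e1 : ∑ u ∈ sqF (4 * P.κ) c.2, (if Sq (4 * P.κ) c.2 u then
              o (lst C (4 * P.κ) c.1 u) u else 1) =
              ∑ u ∈ sqF (4 * P.κ) c.2, o (lst C (4 * P.κ) c.1 u) u :=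
            Finset.sum_congr rfl (fun u hu => if_pos (mem_sqF.1 hu))
          have e2 : ∑ u ∈ sqF (4 * P.κ) c.2, (if Sq (4 * P.κ) c.2 u then o c u else 1) =
              ∑ u ∈ sqF (4 * P.κ) c.2, o c u :=
            Finset.sum_congr rfl (fun u hu => if_pos (mem_sqF.1 hu))
          rw [e1, e2]
          exact htot c hc)
      refine ⟨X, fun _ => ⟨hXT, ?_, ?_, ?_, fun i hi' => absurd ⟨i, hi'⟩ hi⟩⟩
      · intro t u _ hlat
        obtain ⟨_, h2, _, h4⟩ := hXL t u hlat
        exact ⟨h2, h4⟩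
      · intro u hu
        rw [hX0 c.1 u le_rfl]
        exact if_pos hu
      · intro u c' hc' hp
        rw [hX1 c'.1 u (piece_sep hC hc hc' hp)]
        exact if_pos hp.1
  choose X hX using hXex
  have hspec := fun t u => lst_spec hC (by omega : 4 * P.κ - 1 ≤ 4 * P.κ) t u
  obtain ⟨hzT, hzL⟩ := patch hC X (fun c hc => (hX c hc).1)
    (fun t u h => (hX _ (hspec (t + 1) u).1).2.1 t u rfl h)
    (fun c hc c' hc' u hp => by
      rw [(hX c hc).2.2.2.1 u c' hc' hp, (hX c' hc').2.2.1 u hp.2.1, lst_of_piece hC hc hp])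
  refine ⟨fun v => X (lst C (4 * P.κ) (v.1 + 1) v.2) v, ⟨hzT, C, F, hC, hF, hzL, ?_⟩, ?_⟩
  · intro c hc c' hc'
    rw [← (ho c hc).2.1 c' hc']
    apply Finset.sum_congr rfl
    intro u hu
    rw [mem_piece] at hu
    have h1 : st (fun v : P3 => X (lst C (4 * P.κ) (v.1 + 1) v.2) v) c'.1 u = st (X c') c'.1 u := by
      rw [st_eq_iff]
      simp only
      rw [lst_start hC le_rfl (by omega) hc' hu.2.1]
    rw [h1, (hX c' hc').2.2.1 u hu.2.1, lst_of_piece hC hc hu]
  · intro i v hv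
    simp only
    have hs := hspec (v.1 + 1) v.2
    have hg := lst_ge hC le_rfl (by omega : 4 * P.κ - 1 ≤ 4 * P.κ) (v.1 + 1) v.2
    set c := lst C (4 * P.κ) (v.1 + 1) v.2 with hc_def
    have hcn : Nr (A i) (3 * P.τ) c := by
      refine ⟨v, hv, ?_⟩
      have h1 := hs.2.2.1
      have h2 := hs.2.1
      unfold Bx
      unfold Sq at h1
      omega
    rw [(hX c hs.1).2.2.2.2 i hcn]

end Pool.Agent.H47.Dom
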