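import Pool.Agent.H47.Dom.Swap

/-!
The scaffold: maximal independent sets of room centres.
-/

namespace Pool.Agent.H47.Dom

/-- parameters -/
structure Par where
  κ : ℤ
  τ : ℤ
  a : ℤ
  hκ : 222025 ≤ κ
  ha : 8 * (4 * κ) ^ 3 ≤ a
  hτ : 18502 * a + 1 ≤ τ

lemma Par.ha' (P : Par) : 100 * P.κ ≤ P.a := by
  have h1 := P.hκ
  have h2 := P.ha
  nlinarith [mul_pos (by linarith : 0 < P.κ) (by linarith : 0 < P.κ),
    mul_pos (mul_pos (by linarith : 0 < P.κ) (by linarith : 0 < P.κ)) (by linarith : 0 < P.κ)]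

/-- strict box inequality -/
def nr (r x : ℤ) : Prop := -r < x ∧ x < r

/-- the conflict relation -/
def Conf (P : Par) (v w : P3) : Prop :=
  (nr P.τ (v.1 - w.1) ∧ nr P.κ (v.2.1 - w.2.1) ∧ nr P.κ (v.2.2 - w.2.2)) ∨
  (nr (3 * P.τ + 1) (v.1 - w.1) ∧ nr (12 * P.κ + 1) (v.2.1 - w.2.1) ∧
    nr (12 * P.κ + 1) (v.2.2 - w.2.2) ∧
    (nr P.a (v.1 - w.1) ∨
      (nr 4 (v.2.1 - w.2.1) ∨ nr 4 (v.2.1 - w.2.1 - 4 * P.κ) ∨ nr 4 (v.2.1 - w.2.1 + 4 * P.κ)) ∨
      (nr 4 (v.2.2 - w.2.2) ∨ nr 4 (v.2.2 - w.2.2 - 4 * P.κ) ∨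
        nr 4 (v.2.2 - w.2.2 + 4 * P.κ))))

lemma conf_refl (P : Par) (v : P3) : Conf P v v := by
  have h1 := P.hκ
  have h2 := P.ha'
  have h3 := P.hτ
  left
  unfold nr
  omega

lemma conf_symm {P : Par} {v w : P3} (h : Conf P v w) : Conf P w v := by
  unfold Conf nr at *
  rcases h with h | ⟨h1, h2, h3, h4⟩
  · left; omega
  · right
    refine ⟨by omega, by omega, by omega, ?_⟩
    rcases h4 with h4 | (h4 | h4 | h4) | (h4 | h4 | h4)
    · left; omega
    · right; left; left; omega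
    · right; left; right; right; omega
    · right; left; right; left; omega
    · right; right; left; omega
    · right; right; right; right; omega
    · right; right; right; left; omega

/-- maximal independent sets -/
def Mis (P : Par) (C : Set P3) : Prop :=
  (∀ v ∈ C, ∀ w ∈ C, Conf P v w → v = w) ∧ ∀ v, ∃ c ∈ C, Conf P v c

/-- every independent set extends to a maximal one -/
lemma exists_mis (P : Par) (C₀ : Set P3) (h : ∀ v ∈ C₀, ∀ w ∈ C₀, Conf P v w → v = w) :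
    ∃ C, C₀ ⊆ C ∧ Mis P C := by
  obtain ⟨C, hsub, hmax⟩ := zorn_subset_nonempty
    {C : Set P3 | ∀ v ∈ C, ∀ w ∈ C, Conf P v w → v = w} (by
      intro c hc hchain hne
      refine ⟨⋃₀ c, ?_, fun s hs => Set.subset_sUnion_of_mem hs⟩
      rintro v ⟨A, hA, hv⟩ w ⟨B, hB, hw⟩ hvw
      rcases hchain.total hA hB with hAB | hAB
      · exact hc hB v (hAB hv) w hw hvw
      · exact hc hA v hv w (hAB hw) hvw) C₀ h
  refine ⟨C, hsub, hmax.prop, ?_⟩
  intro v
  by_contra hcon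
  push Not at hcon
  have hvC : v ∉ C := fun hv => hcon v hv (conf_refl P v)
  have : insert v C ∈ {C : Set P3 | ∀ v ∈ C, ∀ w ∈ C, Conf P v w → v = w} := by
    rintro a ha b hb hab
    rcases ha with rfl | ha <;> rcases hb with rfl | hb
    · rfl
    · exact absurd hab (hcon b hb)
    · exact absurd (conf_symm hab) (hcon a ha)
    · exact hmax.prop a ha b hb hab
  exact hvC (hmax.le_of_ge this (Set.subset_insert v C) (Set.mem_insert v C))

lemma pick (S : Finset P3) (f : P3 → Finset ℤ) (k : ℕ) (hf : ∀ c ∈ S, (f c).card ≤ k)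
    (lo len : ℤ) (h : (S.card * k : ℤ) < len) :
    ∃ z, lo ≤ z ∧ z < lo + len ∧ ∀ c ∈ S, z ∉ f c := by
  classical
  have h1 : (S.biUnion f).card < (Finset.Ico lo (lo + len)).card := by
    have h2 := Finset.card_biUnion_le_card_mul S f k hf
    rw [Int.card_Ico]
    have h3 : ((S.biUnion f).card : ℤ) ≤ (S.card * k : ℤ) := by exact_mod_cast h2
    omega
  obtain ⟨z, hz, hz'⟩ := Finset.exists_mem_notMem_of_card_lt_card h1
  rw [Finset.mem_Ico] at hz
  refine ⟨z, hz.1, hz.2, fun c hc hzc => hz' (Finset.mem_biUnion.2 ⟨c, hc, hzc⟩)⟩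

lemma ediv_mem {t x y : ℤ} {n : ℤ} (ht : 0 < t) (h1 : y - n * t ≤ x) (h2 : x ≤ y + n * t) :
    x / t ∈ Finset.Icc (y / t - n) (y / t + n) := by
  rw [Finset.mem_Icc]
  have hy := Int.mul_ediv_add_emod y t
  have hx := Int.mul_ediv_add_emod x t
  have hy1 := Int.emod_nonneg y ht.ne'
  have hx1 := Int.emod_nonneg x ht.ne'
  have hy2 := Int.emod_lt_of_pos y ht
  have hx2 := Int.emod_lt_of_pos x ht
  constructor
  · by_contra hcon
    push Not at hcon
    have : x / t + 1 ≤ y / t - n := hcon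
    nlinarith
  · by_contra hcon
    push Not at hcon
    have : y / t + n + 1 ≤ x / t := hcon
    nlinarith

lemma ediv_eq {t x y : ℤ} (ht : 0 < t) (h : x / t = y / t) : nr t (x - y) := by
  have hy := Int.mul_ediv_add_emod y t
  have hx := Int.mul_ediv_add_emod x t
  have hy1 := Int.emod_nonneg y ht.ne'
  have hx1 := Int.emod_nonneg x ht.ne'
  have hy2 := Int.emod_lt_of_pos y ht
  have hx2 := Int.emod_lt_of_pos x ht
  rw [h] at hx
  unfold nr
  omega

/-- covering: every face is covered by a room started in every time window of length `3τ` -/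
lemma cover {P : Par} {C : Set P3} (hC : Mis P C) (t : ℤ) (u : P2) :
    ∃ c ∈ C, t ≤ c.1 ∧ c.1 < t + 3 * P.τ ∧ Sq (4 * P.κ - 1) c.2 u := by
  classical
  have h1 := P.hκ
  have h2 := P.ha'
  have h3 := P.hτ
  by_contra hcon
  push Not at hcon
  set S : Finset P3 := (Finset.Icc (t - 5 * P.τ) (t + 5 * P.τ) ×ˢ
    (Finset.Icc (u.1 - 14 * P.κ) (u.1 + 14 * P.κ) ×ˢ
      Finset.Icc (u.2 - 14 * P.κ) (u.2 + 14 * P.κ))).filter (fun c => c ∈ C) with hS_def
  have memS : ∀ c : P3, c ∈ S ↔ ((t - 5 * P.τ ≤ c.1 ∧ c.1 ≤ t + 5 * P.τ) ∧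
      (u.1 - 14 * P.κ ≤ c.2.1 ∧ c.2.1 ≤ u.1 + 14 * P.κ) ∧
      (u.2 - 14 * P.κ ≤ c.2.2 ∧ c.2.2 ≤ u.2 + 14 * P.κ)) ∧ c ∈ C := by
    intro c
    simp only [hS_def, Finset.mem_filter, Finset.mem_product, Finset.mem_Icc]
  have hcard : S.card ≤ 9251 := by
    have hle : S.card ≤ (Finset.Icc (t / P.τ - 5) (t / P.τ + 5) ×ˢ
        (Finset.Icc (u.1 / P.κ - 14) (u.1 / P.κ + 14) ×ˢ
          Finset.Icc (u.2 / P.κ - 14) (u.2 / P.κ + 14))).card := by
      apply Finset.card_le_card_of_injOn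
        (fun c : P3 => ((c.1 / P.τ, (c.2.1 / P.κ, c.2.2 / P.κ)) : P3))
      · intro c hc
        have hc := (memS c).1 hc
        simp only [Finset.coe_product, Set.mem_prod, Finset.mem_coe]
        exact ⟨ediv_mem (by omega) hc.1.1.1 hc.1.1.2, ediv_mem (by omega) hc.1.2.1.1 hc.1.2.1.2,
          ediv_mem (by omega) hc.1.2.2.1 hc.1.2.2.2⟩
      · intro c hc c' hc' heq
        have hc := ((memS c).1 hc).2
        have hc' := ((memS c').1 hc').2
        simp only [Prod.mk.injEq] at heq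
        apply hC.1 c hc c' hc'
        left
        exact ⟨ediv_eq (by omega) heq.1, ediv_eq (by omega) heq.2.1, ediv_eq (by omega) heq.2.2⟩
    refine hle.trans (le_of_eq ?_)
    rw [Finset.card_product, Finset.card_product, Int.card_Icc, Int.card_Icc, Int.card_Icc]
    have e1 : (t / P.τ + 5 + 1 - (t / P.τ - 5)).toNat = 11 := by omega
    have e2 : (u.1 / P.κ + 14 + 1 - (u.1 / P.κ - 14)).toNat = 29 := by omega
    have e3 : (u.2 / P.κ + 14 + 1 - (u.2 / P.κ - 14)).toNat = 29 := by omega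
    rw [e1, e2, e3]
  obtain ⟨c1, hc1, hc1', hc1S⟩ := pick S (fun c => Finset.Ioo (c.1 - P.a) (c.1 + P.a))
    (2 * P.a).toNat (by intro c _; rw [Int.card_Ioo]; omega) (t + P.τ) P.τ (by
      rw [Int.toNat_of_nonneg (by omega)]
      have : (S.card : ℤ) ≤ 9251 := by exact_mod_cast hcard
      nlinarith)
  have hw : ∀ x : ℤ, (Finset.Ioo (x - 4) (x + 4) ∪ (Finset.Ioo (x + 4 * P.κ - 4) (x + 4 * P.κ + 4) ∪
      Finset.Ioo (x - 4 * P.κ - 4) (x - 4 * P.κ + 4))).card ≤ 24 := by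
    intro x
    refine (Finset.card_union_le _ _).trans ?_
    have := Finset.card_union_le (Finset.Ioo (x + 4 * P.κ - 4) (x + 4 * P.κ + 4))
      (Finset.Ioo (x - 4 * P.κ - 4) (x - 4 * P.κ + 4))
    rw [Int.card_Ioo, Int.card_Ioo] at this
    rw [Int.card_Ioo]
    omega
  obtain ⟨c2, hc2, hc2', hc2S⟩ := pick S (fun c => Finset.Ioo (c.2.1 - 4) (c.2.1 + 4) ∪
      (Finset.Ioo (c.2.1 + 4 * P.κ - 4) (c.2.1 + 4 * P.κ + 4) ∪
      Finset.Ioo (c.2.1 - 4 * P.κ - 4) (c.2.1 - 4 * P.κ + 4)))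
    24 (fun c _ => hw _) (u.1 - 2 * P.κ) P.κ (by
      have : (S.card : ℤ) ≤ 9251 := by exact_mod_cast hcard
      push_cast
      omega)
  obtain ⟨c3, hc3, hc3', hc3S⟩ := pick S (fun c => Finset.Ioo (c.2.2 - 4) (c.2.2 + 4) ∪
      (Finset.Ioo (c.2.2 + 4 * P.κ - 4) (c.2.2 + 4 * P.κ + 4) ∪
      Finset.Ioo (c.2.2 - 4 * P.κ - 4) (c.2.2 - 4 * P.κ + 4)))
    24 (fun c _ => hw _) (u.2 - 2 * P.κ) P.κ (by
      have : (S.card : ℤ) ≤ 9251 := by exact_mod_cast hcard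
      push_cast
      omega)
  obtain ⟨c, hc, hconf⟩ := hC.2 (c1, (c2, c3))
  rcases hconf with ⟨ha, hb, hd⟩ | ⟨ha, hb, hd, he⟩
  · unfold nr at ha hb hd
    simp only at ha hb hd
    refine hcon c hc (by omega) (by omega) ?_
    unfold Sq
    omega
  · unfold nr at ha hb hd
    simp only at ha hb hd
    have hcS : c ∈ S := by
      rw [memS]
      refine ⟨⟨by omega, by omega, by omega⟩, hc⟩
    have q1 := hc1S c hcS
    have q2 := hc2S c hcS
    have q3 := hc3S c hcS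
    simp only [Finset.mem_union, Finset.mem_Ioo] at q1 q2 q3
    unfold nr at he
    simp only at he
    rcases he with he | (he | he | he) | (he | he | he)
    · apply q1; omega
    · apply q2; left; omega
    · apply q2; right; left; omega
    · apply q2; right; right; omega
    · apply q3; left; omega
    · apply q3; right; left; omega
    · apply q3; right; right; omega

lemma sq_mono {s s' : ℤ} (h : s ≤ s') {q u : P2} (hu : Sq s q u) : Sq s' q u := by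
  unfold Sq at *; omega

/-- two rooms over a common site are far apart in time -/
lemma eq_of_near {P : Par} {C : Set P3} (hC : Mis P C) {c c' : P3} (hc : c ∈ C) (hc' : c' ∈ C)
    {u : P2} (hu : Sq (4 * P.κ) c.2 u) (hu' : Sq (4 * P.κ) c'.2 u) (h : nr P.a (c.1 - c'.1)) :
    c = c' := by
  have h1 := P.hκ
  have h2 := P.ha'
  have h3 := P.hτ
  apply hC.1 c hc c' hc'
  unfold Sq at hu hu'
  unfold nr at h
  right
  unfold nr
  refine ⟨by omega, by omega, by omega, Or.inl (by omega)⟩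

/-- `c` is the last room started before time `t` whose `s`-square contains `u` -/
def IsLst (C : Set P3) (s : ℤ) (t : ℤ) (u : P2) (c : P3) : Prop :=
  c ∈ C ∧ c.1 < t ∧ Sq s c.2 u ∧ ∀ c' ∈ C, c'.1 < t → Sq s c'.2 u → c'.1 ≤ c.1

lemma isLst_unique {P : Par} {C : Set P3} (hC : Mis P C) {s : ℤ} (hs : s ≤ 4 * P.κ) {t : ℤ}
    {u : P2} {c c' : P3} (h : IsLst C s t u c) (h' : IsLst C s t u c') : c = c' := by
  have h1 := P.hκ
  have h2 := P.ha'
  apply eq_of_near hC h.1 h'.1 (sq_mono hs h.2.2.1) (sq_mono hs h'.2.2.1)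
  have a1 := h.2.2.2 c' h'.1 h'.2.1 h'.2.2.1
  have a2 := h'.2.2.2 c h.1 h.2.1 h.2.2.1
  unfold nr
  omega

lemma exists_isLst {P : Par} {C : Set P3} (hC : Mis P C) {s : ℤ} (hs' : 4 * P.κ - 1 ≤ s)
    (t : ℤ) (u : P2) : ∃ c, IsLst C s t u c ∧ t - 3 * P.τ ≤ c.1 := by
  classical
  obtain ⟨c₀, hc₀, ha, hb, hd⟩ := cover hC (t - 3 * P.τ) u
  have hb' : c₀.1 < t := by omega
  obtain ⟨m, hm, hmax⟩ := Int.exists_greatest_of_bdd
    (P := fun r => ∃ c ∈ C, c.1 = r ∧ c.1 < t ∧ Sq s c.2 u)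
    ⟨t, by rintro z ⟨c, _, h1, h2, _⟩; omega⟩ ⟨c₀.1, c₀, hc₀, rfl, hb', sq_mono hs' hd⟩
  obtain ⟨c, hc, hcm, hct, hcu⟩ := hm
  refine ⟨c, ⟨hc, hct, hcu, ?_⟩, ?_⟩
  · intro c' hc' h1 h2
    rw [hcm]
    exact hmax _ ⟨c', hc', rfl, h1, h2⟩
  · have := hmax c₀.1 ⟨c₀, hc₀, rfl, hb', sq_mono hs' hd⟩
    omega

open Classical in
/-- the last room -/
noncomputable def lst (C : Set P3) (s : ℤ) (t : ℤ) (u : P2) : P3 :=
  if h : ∃ c, IsLst C s t u c then h.choose else 0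

lemma lst_spec {P : Par} {C : Set P3} (hC : Mis P C) {s : ℤ} (hs' : 4 * P.κ - 1 ≤ s)
    (t : ℤ) (u : P2) : IsLst C s t u (lst C s t u) := by
  obtain ⟨c, hc, _⟩ := exists_isLst hC hs' t u
  have h : ∃ c, IsLst C s t u c := ⟨c, hc⟩
  unfold lst
  rw [dif_pos h]
  exact h.choose_spec

lemma lst_eq {P : Par} {C : Set P3} (hC : Mis P C) {s : ℤ} (hs : s ≤ 4 * P.κ)
    (hs' : 4 * P.κ - 1 ≤ s) {t : ℤ} {u : P2} {c : P3} (h : IsLst C s t u c) :
    lst C s t u = c :=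
  isLst_unique hC hs (lst_spec hC hs' t u) h

lemma lst_ge {P : Par} {C : Set P3} (hC : Mis P C) {s : ℤ} (hs : s ≤ 4 * P.κ)
    (hs' : 4 * P.κ - 1 ≤ s) (t : ℤ) (u : P2) : t - 3 * P.τ ≤ (lst C s t u).1 := by
  obtain ⟨c, hc, h⟩ := exists_isLst hC hs' t u
  rw [lst_eq hC hs hs' hc]
  exact h

end Pool.Agent.H47.Dom
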