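import Pool.Agent.H47.Dom.Plan

/-!
The set `X0` of tilings compatible with a scaffold and a plan; patching tilings together.
-/

namespace Pool.Agent.H47.Dom

/-- lateral dominoes lie inside rooms -/
def LatRule (P : Par) (C : Set P3) (x : P3 → Dr) : Prop :=
  ∀ t u, (x (t, u)).Lat → ∃ c ∈ C, c.1 ≤ t ∧ t < c.1 + P.a ∧ Sq (4 * P.κ) c.2 u ∧
    Sq (4 * P.κ) c.2 (u + (x (t, u)).lv)

/-- the numbers of particles in the contact pieces are as planned -/
def Compat (P : Par) (C : Set P3) (F : ℤ → P2 → Val) (x : P3 → Dr) : Prop :=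
  ∀ c ∈ C, ∀ c' ∈ C, ∑ u ∈ piece P C c c', st x c'.1 u = ∑ u ∈ piece P C c c', pl (F c'.1) u

def X0 (P : Par) : Set (P3 → Dr) :=
  {x | IsT x ∧ ∃ C F, Mis P C ∧ Rule P C F ∧ LatRule P C x ∧ Compat P C F x}

lemma piece_sep {P : Par} {C : Set P3} (hC : Mis P C) {c c' : P3} (hc : c ∈ C) (hc' : c' ∈ C)
    {u : P2} (h : Piece P C c c' u) : c.1 + P.a ≤ c'.1 := by
  by_contra hcon
  have k2 := P.ha'
  have k1 := P.hκ
  have := eq_of_near hC hc hc' h.1 h.2.1 (by have := h.2.2.1; unfold nr; omega)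
  have h3 := h.2.2.1
  rw [this] at h3
  omega

lemma piece_unique_right {P : Par} {C : Set P3} (hC : Mis P C) {c c' c'' : P3}
    (hc' : c' ∈ C) (hc'' : c'' ∈ C) {u : P2} (h : Piece P C c c' u) (h' : Piece P C c c'' u) :
    c' = c'' := by
  have k2 := P.ha'
  have k1 := P.hκ
  have a1 : ¬ c'.1 < c''.1 := fun hlt => h'.2.2.2 c' hc' h.2.2.1 hlt h.2.1
  have a2 : ¬ c''.1 < c'.1 := fun hlt => h.2.2.2 c'' hc'' h'.2.2.1 hlt h'.2.1
  exact eq_of_near hC hc' hc'' h.2.1 h'.2.1 (by unfold nr; omega)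

lemma exists_next {P : Par} {C : Set P3} (hC : Mis P C) {c : P3} {u : P2}
    (hu : Sq (4 * P.κ) c.2 u) : ∃ c' ∈ C, Piece P C c c' u := by
  obtain ⟨c₀, hc₀, ha, hb, hd⟩ := cover hC (c.1 + 1) u
  have hd' := sq_mono (by omega : 4 * P.κ - 1 ≤ 4 * P.κ) hd
  obtain ⟨m, hm, hmin⟩ := Int.exists_least_of_bdd
    (P := fun r => ∃ c' ∈ C, c'.1 = r ∧ c.1 < c'.1 ∧ Sq (4 * P.κ) c'.2 u)
    ⟨c.1, by rintro z ⟨c', _, h1, h2, _⟩; omega⟩ ⟨c₀.1, c₀, hc₀, rfl, by omega, hd'⟩
  obtain ⟨c', hc', hcm, hct, hcu⟩ := hm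
  refine ⟨c', hc', hu, hcu, hct, ?_⟩
  intro b hb h1 h2 h3
  have := hmin b.1 ⟨b, hb, rfl, h1, h3⟩
  omega

lemma isLst_of_piece {P : Par} {C : Set P3} {c c' : P3} (hc : c ∈ C) {u : P2}
    (h : Piece P C c c' u) : IsLst C (4 * P.κ) c'.1 u c := by
  refine ⟨hc, h.2.2.1, h.1, ?_⟩
  intro b hb h1 h2
  by_contra hcon
  exact h.2.2.2 b hb (by omega) h1 h2

lemma lst_of_piece {P : Par} {C : Set P3} (hC : Mis P C) {c c' : P3} (hc : c ∈ C) {u : P2}
    (h : Piece P C c c' u) : lst C (4 * P.κ) c'.1 u = c :=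
  lst_eq hC le_rfl (by omega) (isLst_of_piece hc h)

lemma piece_of_lst {P : Par} {C : Set P3} (hC : Mis P C) {c' : P3} {u : P2}
    (hu : Sq (4 * P.κ) c'.2 u) : Piece P C (lst C (4 * P.κ) c'.1 u) c' u := by
  have h := lst_spec hC (by omega : 4 * P.κ - 1 ≤ 4 * P.κ) c'.1 u
  refine ⟨h.2.2.1, hu, h.2.1, ?_⟩
  intro b hb h1 h2 h3
  have := h.2.2.2 b hb h2 h3
  omega

/-- a room starting at time `t` over `u` is the last room before `t + 1` -/
lemma lst_start {P : Par} {C : Set P3} (hC : Mis P C) {s : ℤ} (hs : s ≤ 4 * P.κ)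
    (hs' : 4 * P.κ - 1 ≤ s) {c : P3} (hc : c ∈ C) {u : P2} (hu : Sq s c.2 u) :
    lst C s (c.1 + 1) u = c :=
  lst_eq hC hs hs' ⟨hc, by omega, hu, fun b _ h1 _ => by omega⟩

lemma lst_same {P : Par} {C : Set P3} (hC : Mis P C) {s : ℤ} (hs : s ≤ 4 * P.κ)
    (hs' : 4 * P.κ - 1 ≤ s) {t : ℤ} {u : P2} (h : ∀ c ∈ C, c.1 = t → ¬ Sq s c.2 u) :
    lst C s (t + 1) u = lst C s t u := by
  have h1 := lst_spec hC hs' t u
  refine lst_eq hC hs hs' ⟨h1.1, by have := h1.2.1; omega, h1.2.2.1, ?_⟩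
  intro b hb h2 h3
  by_cases hbt : b.1 = t
  · exact absurd h3 (h b hb hbt)
  · exact h1.2.2.2 b hb (by omega) h3

/-- the last room before `t + 1` started at `t`, or it is the last room before `t` -/
lemma lst_cases {P : Par} {C : Set P3} (hC : Mis P C) (t : ℤ) (u : P2) :
    (∃ c ∈ C, c.1 = t ∧ Sq (4 * P.κ) c.2 u ∧ lst C (4 * P.κ) (t + 1) u = c) ∨
      lst C (4 * P.κ) (t + 1) u = lst C (4 * P.κ) t u := by
  by_cases h : ∃ c ∈ C, c.1 = t ∧ Sq (4 * P.κ) c.2 u
  · obtain ⟨c, hc, rfl, hu⟩ := h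
    exact Or.inl ⟨c, hc, rfl, hu, lst_start hC le_rfl (by omega) hc hu⟩
  · right
    push Not at h
    exact lst_same hC le_rfl (by omega) h

/-- patching -/
lemma patch {P : Par} {C : Set P3} (hC : Mis P C) (X : P3 → P3 → Dr)
    (hT : ∀ c ∈ C, IsT (X c))
    (h1 : ∀ t u, (X (lst C (4 * P.κ) (t + 1) u) (t, u)).Lat →
      t < (lst C (4 * P.κ) (t + 1) u).1 + P.a ∧
      Sq (4 * P.κ) (lst C (4 * P.κ) (t + 1) u).2
        (u + (X (lst C (4 * P.κ) (t + 1) u) (t, u)).lv))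
    (h2 : ∀ c ∈ C, ∀ c' ∈ C, ∀ u, Piece P C c c' u → st (X c) c'.1 u = st (X c') c'.1 u) :
    IsT (fun v => X (lst C (4 * P.κ) (v.1 + 1) v.2) v) ∧
      LatRule P C (fun v => X (lst C (4 * P.κ) (v.1 + 1) v.2) v) := by
  have k1 := P.hκ
  have k2 := P.ha'
  have hspec := fun t u => lst_spec hC (by omega : 4 * P.κ - 1 ≤ 4 * P.κ) t u
  constructor
  · apply isT_of
    · intro t u h
      simp only at h ⊢
      set c := lst C (4 * P.κ) (t + 1) u with hc_def
      have hc : c ∈ C := (hspec (t + 1) u).1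
      have h3 := isT_U (hT c hc) h
      rcases lst_cases hC (t + 1) u with ⟨c', hc', ht', hu', hl⟩ | hl
      · rw [hl]
        have hp : Piece P C c c' u := by
          have := piece_of_lst hC hu'
          rw [ht'] at this
          exact this
        have h4 := h2 c hc c' hc' u hp
        rw [ht', st_eq_iff] at h4
        exact h4.1 h3
      · rw [hl]; exact h3
    · intro t u h
      simp only at h ⊢
      rw [sub_add_cancel]
      rcases lst_cases hC t u with ⟨c', hc', ht', hu', hl⟩ | hl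
      · rw [hl] at h
        set c := lst C (4 * P.κ) t u with hc_def
        have hc : c ∈ C := (hspec t u).1
        have hp : Piece P C c c' u := by
          have := piece_of_lst hC hu'
          rw [ht'] at this
          exact this
        have h4 := h2 c hc c' hc' u hp
        rw [ht', st_eq_iff] at h4
        exact isT_D (hT c hc) (h4.2 h)
      · rw [hl] at h
        exact isT_D (hT _ (hspec t u).1) h
    · intro t u h
      simp only at h ⊢
      obtain ⟨h3, h4⟩ := h1 t u h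
      have hl := hspec (t + 1) u
      set c := lst C (4 * P.κ) (t + 1) u with hc_def
      have h5 : lst C (4 * P.κ) (t + 1) (u + (X c (t, u)).lv) = c := by
        apply lst_eq hC le_rfl (by omega)
        refine ⟨hl.1, hl.2.1, h4, ?_⟩
        intro b hb h6 h7
        by_contra hcon
        have : b = c := eq_of_near hC hb hl.1 h7 h4 (by unfold nr; omega)
        rw [this] at hcon
        exact hcon le_rfl
      rw [h5]
      exact isT_L (hT c hl.1) h
  · intro t u h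
    simp only at h ⊢
    obtain ⟨h3, h4⟩ := h1 t u h
    have hl := hspec (t + 1) u
    exact ⟨_, hl.1, by have := hl.2.1; omega, h3, hl.2.2.1, h4⟩

end Pool.Agent.H47.Dom
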