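import Pool.Agent.H47.Dom.Mis

/-!
Contact pieces and their boundaries.
-/

namespace Pool.Agent.H47.Dom

/-- `u` lies over the room `c`, and the next room over `u` is `c'` -/
def Piece (P : Par) (C : Set P3) (c c' : P3) (u : P2) : Prop :=
  Sq (4 * P.κ) c.2 u ∧ Sq (4 * P.κ) c'.2 u ∧ c.1 < c'.1 ∧
    ∀ b ∈ C, c.1 < b.1 → b.1 < c'.1 → ¬ Sq (4 * P.κ) b.2 u

open Classical in
noncomputable def piece (P : Par) (C : Set P3) (c c' : P3) : Finset P2 :=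
  (sqF (4 * P.κ) c.2).filter (fun u => Piece P C c c' u)

lemma mem_piece {P : Par} {C : Set P3} {c c' : P3} {u : P2} :
    u ∈ piece P C c c' ↔ Piece P C c c' u := by
  classical
  unfold piece
  rw [Finset.mem_filter, mem_sqF]
  exact ⟨fun h => h.2, fun h => ⟨h.1, h⟩⟩

lemma piece_time {P : Par} {C : Set P3} (hC : Mis P C) {c c' : P3}
    {u : P2} (h : Piece P C c c' u) : c'.1 ≤ c.1 + 3 * P.τ := by
  obtain ⟨b, hb, h1, h2, h3⟩ := cover hC (c.1 + 1) u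
  by_contra hcon
  exact h.2.2.2 b hb (by omega) (by omega) (sq_mono (by omega) h3)

lemma wall {P : Par} {C : Set P3} {c c' : P3} (hc : c ∈ C) (hc' : c' ∈ C)
    {u v : P2} (h : Piece P C c c' u) (h' : ¬ Piece P C c c' v) :
    ∃ b ∈ C, c.1 ≤ b.1 ∧ b.1 ≤ c'.1 ∧
      ((Sq (4 * P.κ) b.2 u ∧ ¬ Sq (4 * P.κ) b.2 v ∧ (b = c ∨ b = c')) ∨
        (¬ Sq (4 * P.κ) b.2 u ∧ Sq (4 * P.κ) b.2 v ∧ c.1 < b.1 ∧ b.1 < c'.1)) := by
  have hlt := h.2.2.1
  by_cases h1 : Sq (4 * P.κ) c.2 v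
  swap
  · exact ⟨c, hc, le_rfl, hlt.le, Or.inl ⟨h.1, h1, Or.inl rfl⟩⟩
  by_cases h2 : Sq (4 * P.κ) c'.2 v
  swap
  · exact ⟨c', hc', hlt.le, le_rfl, Or.inl ⟨h.2.1, h2, Or.inr rfl⟩⟩
  have h3 : ¬ ∀ b ∈ C, c.1 < b.1 → b.1 < c'.1 → ¬ Sq (4 * P.κ) b.2 v :=
    fun h3 => h' ⟨h1, h2, hlt, h3⟩
  push Not at h3
  obtain ⟨b, hb, hb1, hb2, hb3⟩ := h3
  exact ⟨b, hb, hb1.le, hb2.le, Or.inr ⟨h.2.2.2 b hb hb1 hb2, hb3, hb1, hb2⟩⟩

def unitv (e : P2) : Prop := e = (1, 0) ∨ e = (-1, 0) ∨ e = (0, 1) ∨ e = (0, -1)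

/-- `j` steps from `u` in the direction `-e` -/
def back (e : P2) (j : ℤ) (u : P2) : P2 := (u.1 - j * e.1, u.2 - j * e.2)

lemma run_step {P : Par} {C : Set P3} (hC : Mis P C) {c c' : P3} (hc : c ∈ C) (hc' : c' ∈ C)
    {e : P2} (he : unitv e) {u : P2} (hu : Piece P C c c' u) (hu' : ¬ Piece P C c c' (u + e))
    {j : ℤ} (hj : 0 ≤ j) (hj' : j < 3) (h : Piece P C c c' (back e j u)) :
    Piece P C c c' (back e (j + 1) u) := by
  have k1 := P.hκ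
  have k2 := P.ha'
  have k3 := P.hτ
  have k4 := piece_time hC hu
  by_contra hcon
  obtain ⟨b, hb, hb1, hb2, hb3⟩ := wall hc hc' hu hu'
  obtain ⟨b', hb', hb1', hb2', hb3'⟩ := wall hc hc' h hcon
  obtain ⟨u1, u2⟩ := u
  by_cases hbb : b = b'
  · subst hbb
    have hcase : (b = c ∨ b = c') ∨ (c.1 < b.1 ∧ b.1 < c'.1) := by
      rcases hb3 with h3 | h3
      · exact Or.inl h3.2.2
      · exact Or.inr h3.2.2
    have hnot : ¬ ((b = c ∨ b = c') ∧ (c.1 < b.1 ∧ b.1 < c'.1)) := by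
      rintro ⟨h3 | h3, h4⟩
      · rw [h3] at h4; omega
      · rw [h3] at h4; omega
    clear hcon hu hu' h
    unfold Sq at hb3 hb3'
    unfold back at hb3'
    rcases hb3 with ⟨p1, p2, p3⟩ | ⟨p1, p2, p3⟩ <;> rcases hb3' with ⟨q1, q2, q3⟩ | ⟨q1, q2, q3⟩
    · rcases he with rfl | rfl | rfl | rfl <;>
      simp only [Prod.mk_add_mk] at p1 p2 q1 q2 <;> omega
    · exact hnot ⟨p3, q3⟩
    · exact hnot ⟨q3, p3⟩
    · rcases he with rfl | rfl | rfl | rfl <;>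
      simp only [Prod.mk_add_mk] at p1 p2 q1 q2 <;> omega
  · apply hbb
    apply hC.1 b hb b' hb'
    right
    clear hcon hu hu' h
    unfold Sq at hb3 hb3'
    unfold back at hb3'
    unfold nr
    have hb3 : ((b.2.1 ≤ u1 ∧ u1 < b.2.1 + 4 * P.κ ∧ b.2.2 ≤ u2 ∧ u2 < b.2.2 + 4 * P.κ) ∧
      ¬ (b.2.1 ≤ u1 + e.1 ∧ u1 + e.1 < b.2.1 + 4 * P.κ ∧ b.2.2 ≤ u2 + e.2 ∧
        u2 + e.2 < b.2.2 + 4 * P.κ)) ∨
      (¬ (b.2.1 ≤ u1 ∧ u1 < b.2.1 + 4 * P.κ ∧ b.2.2 ≤ u2 ∧ u2 < b.2.2 + 4 * P.κ) ∧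
      (b.2.1 ≤ u1 + e.1 ∧ u1 + e.1 < b.2.1 + 4 * P.κ ∧ b.2.2 ≤ u2 + e.2 ∧
        u2 + e.2 < b.2.2 + 4 * P.κ)) := by
      rcases hb3 with h3 | h3
      · exact Or.inl ⟨h3.1, h3.2.1⟩
      · exact Or.inr ⟨h3.1, h3.2.1⟩
    have hb3' : ((b'.2.1 ≤ u1 - j * e.1 ∧ u1 - j * e.1 < b'.2.1 + 4 * P.κ ∧
        b'.2.2 ≤ u2 - j * e.2 ∧ u2 - j * e.2 < b'.2.2 + 4 * P.κ) ∧
      ¬ (b'.2.1 ≤ u1 - (j + 1) * e.1 ∧ u1 - (j + 1) * e.1 < b'.2.1 + 4 * P.κ ∧
        b'.2.2 ≤ u2 - (j + 1) * e.2 ∧ u2 - (j + 1) * e.2 < b'.2.2 + 4 * P.κ)) ∨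
      (¬ (b'.2.1 ≤ u1 - j * e.1 ∧ u1 - j * e.1 < b'.2.1 + 4 * P.κ ∧
        b'.2.2 ≤ u2 - j * e.2 ∧ u2 - j * e.2 < b'.2.2 + 4 * P.κ) ∧
      (b'.2.1 ≤ u1 - (j + 1) * e.1 ∧ u1 - (j + 1) * e.1 < b'.2.1 + 4 * P.κ ∧
        b'.2.2 ≤ u2 - (j + 1) * e.2 ∧ u2 - (j + 1) * e.2 < b'.2.2 + 4 * P.κ)) := by
      rcases hb3' with h3 | h3
      · exact Or.inl ⟨h3.1, h3.2.1⟩
      · exact Or.inr ⟨h3.1, h3.2.1⟩
    rcases he with rfl | rfl | rfl | rfl <;> simp only at hb3 hb3'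
    · refine ⟨by omega, by omega, by omega, Or.inr (Or.inl ?_)⟩
      omega
    · refine ⟨by omega, by omega, by omega, Or.inr (Or.inl ?_)⟩
      omega
    · refine ⟨by omega, by omega, by omega, Or.inr (Or.inr ?_)⟩
      omega
    · refine ⟨by omega, by omega, by omega, Or.inr (Or.inr ?_)⟩
      omega

lemma run {P : Par} {C : Set P3} (hC : Mis P C) {c c' : P3} (hc : c ∈ C) (hc' : c' ∈ C)
    {e : P2} (he : unitv e) {u : P2} (hu : Piece P C c c' u) (hu' : ¬ Piece P C c c' (u + e)) :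
    ∀ j : ℕ, j < 4 → Piece P C c c' (back e j u) := by
  intro j
  induction j with
  | zero => intro _; simpa [back] using hu
  | succ j ih =>
    intro hj
    have := run_step hC hc hc' he hu hu' (j := j) (by positivity) (by omega) (ih (by omega))
    push_cast
    exact this

/-- counting: if every boundary site has three more sites behind it then the boundary is small -/
lemma boundary_card (φ : Finset P2) {e : P2}
    (h : ∀ u ∈ φ, u + e ∉ φ → ∀ j : ℕ, j < 4 → back e j u ∈ φ) :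
    4 * (φ.filter (fun u => u + e ∉ φ)).card ≤ φ.card := by
  classical
  have h1 : ((φ.filter (fun u => u + e ∉ φ)) ×ˢ Finset.range 4).card ≤ φ.card := by
    apply Finset.card_le_card_of_injOn (fun p : P2 × ℕ => back e p.2 p.1)
    · rintro ⟨u, j⟩ hp
      simp only [Finset.coe_product, Set.mem_prod, Finset.mem_coe, Finset.mem_filter,
        Finset.mem_range] at hp
      exact h u hp.1.1 hp.1.2 j hp.2
    · rintro ⟨u, j⟩ hp ⟨u', j'⟩ hp' heq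
      simp only [Finset.coe_product, Set.mem_prod, Finset.mem_coe, Finset.mem_filter,
        Finset.mem_range] at hp hp'
      simp only at heq
      have key : ∀ (u u' : P2) (j j' : ℕ), u ∈ φ → u + e ∉ φ → u' ∈ φ → u' + e ∉ φ → j < 4 →
          j' < 4 → back e j u = back e j' u' → j < j' → False := by
        intro u u' j j' hu hue hu' hue' hj hj' heq hlt
        -- `u' = u + (j' - j) e`, so `u + e = back (j' - j - 1) u'`
        apply hue
        have h2 := h u' hu' hue' (j' - j - 1) (by omega)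
        have h3 : back e ((j' - j - 1 : ℕ) : ℤ) u' = u + e := by
          have h4 : ((j' - j - 1 : ℕ) : ℤ) = (j' : ℤ) - j - 1 := by omega
          rw [h4]
          unfold back at heq ⊢
          rw [Prod.mk.injEq] at heq
          obtain ⟨h5, h6⟩ := heq
          apply Prod.ext
          · simp only [Prod.fst_add]; linarith
          · simp only [Prod.snd_add]; linarith
        rwa [h3] at h2
      rcases lt_trichotomy j j' with hlt | hlt | hlt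
      · exact (key u u' j j' hp.1.1 hp.1.2 hp'.1.1 hp'.1.2 hp.2 hp'.2 heq hlt).elim
      · subst hlt
        unfold back at heq
        rw [Prod.mk.injEq] at heq
        obtain ⟨h5, h6⟩ := heq
        have : u = u' := Prod.ext (by linarith) (by linarith)
        rw [this]
      · exact (key u' u j' j hp'.1.1 hp'.1.2 hp.1.1 hp.1.2 hp'.2 hp.2 heq.symm hlt).elim
  rw [Finset.card_product, Finset.card_range] at h1
  omega

end Pool.Agent.H47.Dom
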