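import Pool.Agent.H47.Dom.Piece

/-!
The plan: a `ℤ/2` gauge field and the planned charges.
-/

namespace Pool.Agent.H47.Dom

/-- values of a face field -/
abbrev Val := ZMod 2 × ℤˣ

def lift2 (b : ZMod 2) : ℤ := if b = 0 then 0 else 1

lemma lift2_cast : ∀ b : ZMod 2, ((lift2 b : ℤ) : ZMod 2) = b := by decide

lemma lift2_abs : ∀ b : ZMod 2, |lift2 b| ≤ 1 := by decide

def HH (f : P2 → Val) (u : P2) : ℤ :=
  ((f u).2 : ℤ) * lift2 ((u.1 : ZMod 2) + (f u).1 + (f (u - (0, 1))).1)

def GG (f : P2 → Val) (u : P2) : ℤ :=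
  ((f u).2 : ℤ) * lift2 ((f u).1 + (f (u - (1, 0))).1)

/-- the planned charge -/
def pl (f : P2 → Val) (u : P2) : ℤ :=
  (HH f u - HH f (u - (1, 0))) + (GG f u - GG f (u - (0, 1)))

lemma unit_abs (z : ℤˣ) : |(z : ℤ)| = 1 := by
  rcases Int.units_eq_one_or z with h | h <;> simp [h]

lemma unit_cast (z : ℤˣ) : (((z : ℤ)) : ZMod 2) = 1 := by
  rcases Int.units_eq_one_or z with h | h <;> rw [h]
  · simp
  · decide

lemma HH_abs (f : P2 → Val) (u : P2) : |HH f u| ≤ 1 := by
  unfold HH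
  rw [abs_mul, unit_abs, one_mul]
  exact lift2_abs _

lemma GG_abs (f : P2 → Val) (u : P2) : |GG f u| ≤ 1 := by
  unfold GG
  rw [abs_mul, unit_abs, one_mul]
  exact lift2_abs _

lemma z2 (x : ZMod 2) : x + x = 0 := by
  have : ∀ x : ZMod 2, x + x = 0 := by decide
  exact this x

lemma z2' (x : ZMod 2) : -x = x := by
  have : ∀ x : ZMod 2, -x = x := by decide
  exact this x

lemma pl_odd (f : P2 → Val) (u : P2) : ((pl f u : ℤ) : ZMod 2) = 1 := by
  unfold pl HH GG
  push_cast
  simp only [unit_cast, lift2_cast, one_mul]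
  have e1 : u - ((0, 1) : P2) - (1, 0) = u - (1, 0) - (0, 1) := by
    rw [sub_right_comm]
  have e2 : ((u - ((1, 0) : P2)).1 : ZMod 2) = (u.1 : ZMod 2) - 1 := by
    simp
  rw [e1, e2]
  generalize (f u).1 = a
  generalize (f (u - (1, 0))).1 = b
  generalize (f (u - (0, 1))).1 = c
  generalize (f (u - (1, 0) - (0, 1))).1 = d
  generalize (u.1 : ZMod 2) = x
  revert a b c d x
  decide

lemma pl_congr {f g : P2 → Val} {u : P2} (h1 : f u = g u) (h2 : f (u - (1, 0)) = g (u - (1, 0)))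
    (h3 : f (u - (0, 1)) = g (u - (0, 1)))
    (h4 : f (u - (1, 0) - (0, 1)) = g (u - (1, 0) - (0, 1))) : pl f u = pl g u := by
  unfold pl HH GG
  have e1 : u - ((0, 1) : P2) - (1, 0) = u - (1, 0) - (0, 1) := by
    rw [sub_right_comm]
  rw [e1, h1, h2, h3, h4]

/-- summation by parts over a finite set of sites -/
lemma stokes (φ : Finset P2) (f : P2 → ℤ) (e : P2) :
    ∑ u ∈ φ, (f u - f (u - e)) =
      ∑ u ∈ φ.filter (fun u => u + e ∉ φ), f u -
        ∑ u ∈ φ.filter (fun u => u + -e ∉ φ), f (u - e) := by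
  classical
  rw [Finset.sum_sub_distrib]
  have h1 : ∑ u ∈ φ, f u = ∑ u ∈ φ.filter (fun u => u + e ∈ φ), f u +
      ∑ u ∈ φ.filter (fun u => u + e ∉ φ), f u :=
    (Finset.sum_filter_add_sum_filter_not φ _ _).symm
  have h2 : ∑ u ∈ φ, f (u - e) = ∑ u ∈ φ.filter (fun u => u + -e ∈ φ), f (u - e) +
      ∑ u ∈ φ.filter (fun u => u + -e ∉ φ), f (u - e) :=
    (Finset.sum_filter_add_sum_filter_not φ _ _).symm
  have h3 : ∑ u ∈ φ.filter (fun u => u + -e ∈ φ), f (u - e) =
      ∑ u ∈ φ.filter (fun u => u + e ∈ φ), f u := by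
    apply Finset.sum_nbij' (fun u => u - e) (fun u => u + e)
    · intro u hu
      rw [Finset.mem_filter] at hu ⊢
      refine ⟨by rw [sub_eq_add_neg]; exact hu.2, by simpa using hu.1⟩
    · intro u hu
      rw [Finset.mem_filter] at hu ⊢
      refine ⟨hu.2, by simpa using hu.1⟩
    · intro u _; simp
    · intro u _; simp
    · intro u _; rfl
  rw [h1, h2, h3]
  ring

lemma pl_sum (φ : Finset P2) (f : P2 → Val) :
    ∑ u ∈ φ, pl f u =
      (∑ u ∈ φ.filter (fun u => u + (1, 0) ∉ φ), HH f u -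
        ∑ u ∈ φ.filter (fun u => u + -(1, 0) ∉ φ), HH f (u - (1, 0))) +
      (∑ u ∈ φ.filter (fun u => u + (0, 1) ∉ φ), GG f u -
        ∑ u ∈ φ.filter (fun u => u + -(0, 1) ∉ φ), GG f (u - (0, 1))) := by
  unfold pl
  rw [Finset.sum_add_distrib, stokes, stokes]

lemma sum_abs_le_card (s : Finset P2) (f : P2 → ℤ) (h : ∀ u, |f u| ≤ 1) :
    |∑ u ∈ s, f u| ≤ s.card := by
  refine (Finset.abs_sum_le_sum_abs _ _).trans ?_
  refine (Finset.sum_le_sum (fun u _ => h u)).trans ?_
  simp

lemma pl_piece_abs {P : Par} {C : Set P3} (hC : Mis P C) {c c' : P3} (hc : c ∈ C) (hc' : c' ∈ C)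
    (f : P2 → Val) : |∑ u ∈ piece P C c c', pl f u| ≤ (piece P C c c').card := by
  classical
  rw [pl_sum]
  set φ := piece P C c c' with hφ
  have hb : ∀ e : P2, unitv e → 4 * (φ.filter (fun u => u + e ∉ φ)).card ≤ φ.card := by
    intro e he
    apply boundary_card
    intro u hu hue j hj
    rw [hφ, mem_piece] at hu hue ⊢
    exact run hC hc hc' he hu hue j hj
  have b1 := hb (1, 0) (Or.inl rfl)
  have b2 := hb (-(1, 0)) (Or.inr (Or.inl (by simp)))
  have b3 := hb (0, 1) (Or.inr (Or.inr (Or.inl rfl)))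
  have b4 := hb (-(0, 1)) (Or.inr (Or.inr (Or.inr (by simp))))
  have a1 := sum_abs_le_card (φ.filter (fun u => u + (1, 0) ∉ φ)) (HH f) (HH_abs f)
  have a2 := sum_abs_le_card (φ.filter (fun u => u + -(1, 0) ∉ φ)) (fun u => HH f (u - (1, 0)))
    (fun u => HH_abs f _)
  have a3 := sum_abs_le_card (φ.filter (fun u => u + (0, 1) ∉ φ)) (GG f) (GG_abs f)
  have a4 := sum_abs_le_card (φ.filter (fun u => u + -(0, 1) ∉ φ)) (fun u => GG f (u - (0, 1)))
    (fun u => GG_abs f _)
  rw [abs_le] at a1 a2 a3 a4 ⊢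
  constructor <;> omega

lemma pl_piece_parity (φ : Finset P2) (f : P2 → Val) :
    ((∑ u ∈ φ, pl f u : ℤ) : ZMod 2) = (φ.card : ZMod 2) := by
  push_cast
  rw [Finset.sum_congr rfl (fun u _ => pl_odd f u)]
  simp

/-- existence of a state with a prescribed number of particles on `φ` -/
lemma exists_state (φ : Finset P2) (T : ℤ) (h1 : |T| ≤ φ.card)
    (h2 : ((T : ℤ) : ZMod 2) = (φ.card : ZMod 2)) :
    ∃ o : P2 → ℤ, IsS o ∧ ∑ u ∈ φ, o u = T := by
  classical
  rw [abs_le] at h1
  have h3 : ∃ m : ℤ, (φ.card : ℤ) + T = 2 * m := by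
    have : (((φ.card : ℤ) + T : ℤ) : ZMod 2) = 0 := by
      push_cast
      rw [h2, z2]
    rw [ZMod.intCast_zmod_eq_zero_iff_dvd] at this
    exact this
  obtain ⟨m, hm⟩ := h3
  obtain ⟨A, hA, hAc⟩ := Finset.exists_subset_card_eq (s := φ) (n := m.toNat) (by omega)
  refine ⟨fun u => if u ∈ A then 1 else -1, fun u => by simp only; split_ifs <;> simp, ?_⟩
  rw [← Finset.sum_filter_add_sum_filter_not φ (fun u => u ∈ A)]
  rw [Finset.sum_congr rfl (g := fun _ => (1 : ℤ)) (fun u hu => by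
    rw [Finset.mem_filter] at hu; rw [if_pos hu.2])]
  rw [Finset.sum_congr rfl (s₁ := φ.filter (fun u => ¬ u ∈ A)) (g := fun _ => (-1 : ℤ))
    (fun u hu => by rw [Finset.mem_filter] at hu; rw [if_neg hu.2])]
  have c1 : φ.filter (fun u => u ∈ A) = A := by
    ext u
    rw [Finset.mem_filter]
    exact ⟨fun h => h.2, fun h => ⟨hA h, h⟩⟩
  have c2 := Finset.card_filter_add_card_filter_not (s := φ) (fun u => u ∈ A)
  rw [c1] at c2 ⊢
  simp only [Finset.sum_const]
  rw [hAc] at c2 ⊢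
  simp only [nsmul_eq_mul]
  have : ((m.toNat : ℕ) : ℤ) = m := Int.toNat_of_nonneg (by omega)
  omega

/-- the rule for face fields: the value at a face changes only when a room over it starts -/
def Rule (P : Par) (C : Set P3) (F : ℤ → P2 → Val) : Prop :=
  ∀ t p, (∀ c ∈ C, c.1 = t → ¬ Sq (4 * P.κ - 1) c.2 p) → F (t + 1) p = F t p

lemma rule_const {P : Par} {C : Set P3} {F : ℤ → P2 → Val} (hF : Rule P C F) {t t' : ℤ}
    (htt : t ≤ t') {p : P2} (h : ∀ c ∈ C, t ≤ c.1 → c.1 < t' → ¬ Sq (4 * P.κ - 1) c.2 p) :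
    F t' p = F t p := by
  obtain ⟨n, rfl⟩ : ∃ n : ℕ, t' = t + n := by
    obtain ⟨n, hn⟩ := Int.eq_ofNat_of_zero_le (sub_nonneg.2 htt)
    exact ⟨n, by omega⟩
  induction n with
  | zero => simp
  | succ n ih =>
    have h1 : F (t + (n : ℤ)) p = F t p :=
      ih (by omega) (fun c hc h2 h3 => h c hc h2 (by push_cast; omega))
    have h4 : t + ((n + 1 : ℕ) : ℤ) = t + n + 1 := by push_cast; ring
    rw [h4, hF, h1]
    intro c hc hct
    exact h c hc (by omega) (by push_cast; omega)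

/-- the planned charges do not change between consecutive rooms -/
lemma pl_const {P : Par} {C : Set P3} {F : ℤ → P2 → Val} (hF : Rule P C F) {c c' : P3} {u : P2}
    (hu : Piece P C c c' u) {t t' : ℤ} (ht : c.1 < t) (htt : t ≤ t') (ht' : t' ≤ c'.1) :
    pl (F t') u = pl (F t) u := by
  have key : ∀ p : P2, (p.1 = u.1 ∨ p.1 = u.1 - 1) → (p.2 = u.2 ∨ p.2 = u.2 - 1) →
      F t' p = F t p := by
    intro p h1 h2
    apply rule_const hF htt
    intro b hb hb1 hb2 hb3
    apply hu.2.2.2 b hb (by omega) (by omega)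
    unfold Sq at *
    omega
  apply pl_congr <;> apply key <;> simp

/-- conservation of the planned charge of a room -/
lemma pl_conserve {P : Par} {C : Set P3} (hC : Mis P C) {F : ℤ → P2 → Val} (hF : Rule P C F)
    {c : P3} (hc : c ∈ C) :
    ∑ u ∈ sqF (4 * P.κ) c.2, pl (F (c.1 + P.a)) u = ∑ u ∈ sqF (4 * P.κ) c.2, pl (F c.1) u := by
  classical
  have k1 := P.hκ
  have k2 := P.ha'
  have key : ∀ p u : P2, Sq (4 * P.κ) c.2 u → (p.1 = u.1 ∨ p.1 = u.1 - 1) →
      (p.2 = u.2 ∨ p.2 = u.2 - 1) → ¬ Sq (4 * P.κ - 1) c.2 p → F (c.1 + P.a) p = F c.1 p := by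
    intro p u hu h1 h2 h3
    apply rule_const hF (by omega)
    intro b hb hb1 hb2 hb3
    have hbu : Sq (4 * P.κ) b.2 u := by
      unfold Sq at hb3 ⊢
      omega
    have : b = c := eq_of_near hC hb hc hbu hu (by unfold nr; omega)
    rw [this] at hb3
    exact h3 hb3
  rw [pl_sum, pl_sum]
  congr 1
  · congr 1
    · apply Finset.sum_congr rfl
      intro u hu
      rw [Finset.mem_filter, mem_sqF, mem_sqF] at hu
      have e1 := key u u hu.1 (by simp) (by simp) (by
        intro h; apply hu.2; unfold Sq at *; simp only [Prod.fst_add, Prod.snd_add]; omega)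
      have e2 := key (u - (0, 1)) u hu.1 (by simp) (by simp) (by
        intro h; apply hu.2; unfold Sq at *
        simp only [Prod.fst_add, Prod.snd_add, Prod.fst_sub, Prod.snd_sub] at *; omega)
      unfold HH
      rw [e1, e2]
    · apply Finset.sum_congr rfl
      intro u hu
      rw [Finset.mem_filter, mem_sqF, mem_sqF] at hu
      have e1 := key (u - (1, 0)) u hu.1 (by simp) (by simp) (by
        intro h; apply hu.2; unfold Sq at *
        simp only [Prod.fst_add, Prod.snd_add, Prod.fst_sub, Prod.snd_sub, Prod.fst_neg,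
          Prod.snd_neg] at *; omega)
      have e2 := key (u - (1, 0) - (0, 1)) u hu.1 (by simp) (by simp) (by
        intro h; apply hu.2; unfold Sq at *
        simp only [Prod.fst_add, Prod.snd_add, Prod.fst_sub, Prod.snd_sub, Prod.fst_neg,
          Prod.snd_neg] at *; omega)
      unfold HH
      rw [e1, e2]
  · congr 1
    · apply Finset.sum_congr rfl
      intro u hu
      rw [Finset.mem_filter, mem_sqF, mem_sqF] at hu
      have e1 := key u u hu.1 (by simp) (by simp) (by
        intro h; apply hu.2; unfold Sq at *; simp only [Prod.fst_add, Prod.snd_add]; omega)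
      have e2 := key (u - (1, 0)) u hu.1 (by simp) (by simp) (by
        intro h; apply hu.2; unfold Sq at *
        simp only [Prod.fst_add, Prod.snd_add, Prod.fst_sub, Prod.snd_sub] at *; omega)
      unfold GG
      rw [e1, e2]
    · apply Finset.sum_congr rfl
      intro u hu
      rw [Finset.mem_filter, mem_sqF, mem_sqF] at hu
      have e1 := key (u - (0, 1)) u hu.1 (by simp) (by simp) (by
        intro h; apply hu.2; unfold Sq at *
        simp only [Prod.fst_add, Prod.snd_add, Prod.fst_sub, Prod.snd_sub, Prod.fst_neg,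
          Prod.snd_neg] at *; omega)
      have e2 := key (u - (0, 1) - (1, 0)) u hu.1 (by simp) (by simp) (by
        intro h; apply hu.2; unfold Sq at *
        simp only [Prod.fst_add, Prod.snd_add, Prod.fst_sub, Prod.snd_sub, Prod.fst_neg,
          Prod.snd_neg] at *; omega)
      unfold GG
      rw [e1, e2]

end Pool.Agent.H47.Dom
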