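import Pool.Agent.H47.Dom.Glue

/-!
`X0` is invariant under all shifts.
-/

namespace Pool.Agent.H47.Dom

/-- the shifted configuration -/
def shx (v : P3) (x : P3 → Dr) : P3 → Dr := fun w => x (w.1 + v.1, w.2 + v.2)

lemma st_shift (v : P3) (x : P3 → Dr) (t : ℤ) (u : P2) :
    st (shx v x) t u = sg (v.1 + v.2.1 + v.2.2) * st x (t + v.1) (u + v.2) := by
  unfold st shx
  simp only [Prod.fst_add, Prod.snd_add]
  have e : t + v.1 + (u.1 + v.2.1) + (u.2 + v.2.2) =
    (v.1 + v.2.1 + v.2.2) + (t + u.1 + u.2) := by ring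
  rw [e, sg_add (v.1 + v.2.1 + v.2.2)]
  have := sg_mul_self (v.1 + v.2.1 + v.2.2)
  rw [← mul_assoc, ← mul_assoc, this, one_mul]

/-- the shifted face field -/
def shF (v : P3) (F : ℤ → P2 → Val) : ℤ → P2 → Val := fun t p =>
  ((F (t + v.1) (p + v.2)).1 + (v.2.1 : ZMod 2) * (p.2 : ZMod 2),
    (v.1 + v.2.1 + v.2.2).negOnePow * (F (t + v.1) (p + v.2)).2)

lemma HH_shift (v : P3) (F : ℤ → P2 → Val) (t : ℤ) (u : P2) :
    HH (shF v F t) u = sg (v.1 + v.2.1 + v.2.2) * HH (F (t + v.1)) (u + v.2) := by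
  unfold HH shF sg
  push_cast
  rw [mul_assoc]
  congr 2
  have e1 : u - (0, 1) + v.2 = u + v.2 - (0, 1) := by abel
  rw [e1]
  congr 1
  simp only [Prod.snd_sub, Prod.fst_add]
  push_cast
  generalize (F (t + v.1) (u + v.2)).1 = a
  generalize (F (t + v.1) (u + v.2 - (0, 1))).1 = b
  generalize (u.1 : ZMod 2) = c
  generalize (u.2 : ZMod 2) = d
  generalize (v.2.1 : ZMod 2) = e
  revert a b c d e
  decide

lemma GG_shift (v : P3) (F : ℤ → P2 → Val) (t : ℤ) (u : P2) :
    GG (shF v F t) u = sg (v.1 + v.2.1 + v.2.2) * GG (F (t + v.1)) (u + v.2) := by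
  unfold GG shF sg
  push_cast
  rw [mul_assoc]
  congr 2
  have e1 : u - (1, 0) + v.2 = u + v.2 - (1, 0) := by abel
  rw [e1]
  congr 1
  simp only [Prod.snd_sub, sub_zero]
  generalize (F (t + v.1) (u + v.2)).1 = a
  generalize (F (t + v.1) (u + v.2 - (1, 0))).1 = b
  generalize (u.2 : ZMod 2) = d
  generalize (v.2.1 : ZMod 2) = e
  revert a b d e
  decide

lemma pl_shift (v : P3) (F : ℤ → P2 → Val) (t : ℤ) (u : P2) :
    pl (shF v F t) u = sg (v.1 + v.2.1 + v.2.2) * pl (F (t + v.1)) (u + v.2) := by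
  unfold pl
  rw [HH_shift, HH_shift, GG_shift, GG_shift]
  have e1 : u - (1, 0) + v.2 = u + v.2 - (1, 0) := by abel
  have e2 : u - (0, 1) + v.2 = u + v.2 - (0, 1) := by abel
  rw [e1, e2]
  ring

lemma conf_shift {P : Par} {a b v : P3} : Conf P (a + v) (b + v) ↔ Conf P a b := by
  unfold Conf
  simp only [Prod.fst_add, Prod.snd_add, add_sub_add_right_eq_sub]

lemma sq_shift {s : ℤ} {q u v : P2} : Sq s (q + v) (u + v) ↔ Sq s q u := by
  unfold Sq
  simp only [Prod.fst_add, Prod.snd_add]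
  constructor <;> intro h <;> omega

lemma sq_shift' {s : ℤ} {q u v : P2} : Sq s q (u + v) ↔ Sq s (q - v) u := by
  unfold Sq
  simp only [Prod.fst_add, Prod.snd_add, Prod.fst_sub, Prod.snd_sub]
  constructor <;> intro h <;> omega

/-- the shifted scaffold -/
def shC (v : P3) (C : Set P3) : Set P3 := {c | c + v ∈ C}

lemma mis_shift {P : Par} {C : Set P3} (hC : Mis P C) (v : P3) : Mis P (shC v C) := by
  constructor
  · intro a ha b hb hab
    have := hC.1 (a + v) ha (b + v) hb (conf_shift.2 hab)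
    exact add_right_cancel this
  · intro w
    obtain ⟨c, hc, hwc⟩ := hC.2 (w + v)
    refine ⟨c - v, ?_, ?_⟩
    · change c - v + v ∈ C
      rwa [sub_add_cancel]
    · rw [← conf_shift (v := v), sub_add_cancel]
      exact hwc

lemma rule_shift {P : Par} {C : Set P3} {F : ℤ → P2 → Val} (hF : Rule P C F) (v : P3) :
    Rule P (shC v C) (shF v F) := by
  intro t p h
  unfold shF
  have e : t + 1 + v.1 = t + v.1 + 1 := by ring
  rw [e, hF (t + v.1) (p + v.2)]
  intro c hc hct hsq
  apply h (c - v) (by change c - v + v ∈ C; rwa [sub_add_cancel])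
  · simp only [Prod.fst_sub]; omega
  · rw [sq_shift'] at hsq
    exact hsq

lemma latRule_shift {P : Par} {C : Set P3} {x : P3 → Dr} (hx : LatRule P C x) (v : P3) :
    LatRule P (shC v C) (shx v x) := by
  intro t u h
  obtain ⟨c, hc, h1, h2, h3, h4⟩ := hx (t + v.1) (u + v.2) h
  refine ⟨c - v, by change c - v + v ∈ C; rwa [sub_add_cancel], ?_, ?_, ?_, ?_⟩
  · simp only [Prod.fst_sub]; omega
  · simp only [Prod.fst_sub]; omega
  · rw [sq_shift'] at h3
    exact h3
  · rw [add_right_comm, sq_shift'] at h4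
    exact h4

lemma piece_shift {P : Par} {C : Set P3} {v c c' : P3} {u : P2} :
    Piece P (shC v C) c c' u ↔ Piece P C (c + v) (c' + v) (u + v.2) := by
  unfold Piece
  rw [show (c + v).2 = c.2 + v.2 from rfl, show (c' + v).2 = c'.2 + v.2 from rfl, sq_shift,
    sq_shift, show (c + v).1 = c.1 + v.1 from rfl, show (c' + v).1 = c'.1 + v.1 from rfl]
  constructor
  · rintro ⟨h1, h2, h3, h4⟩
    refine ⟨h1, h2, by omega, ?_⟩
    intro b hb h5 h6 h7
    apply h4 (b - v) (by change b - v + v ∈ C; rwa [sub_add_cancel])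
    · simp only [Prod.fst_sub]; omega
    · simp only [Prod.fst_sub]; omega
    · rw [sq_shift'] at h7
      exact h7
  · rintro ⟨h1, h2, h3, h4⟩
    refine ⟨h1, h2, by omega, ?_⟩
    intro b hb h5 h6 h7
    apply h4 (b + v) hb
    · simp only [Prod.fst_add]; omega
    · simp only [Prod.fst_add]; omega
    · rw [show (b + v).2 = b.2 + v.2 from rfl, sq_shift]
      exact h7

lemma sum_piece_shift {P : Par} {C : Set P3} {v c c' : P3} (f : P2 → ℤ) :
    ∑ u ∈ piece P (shC v C) c c', f (u + v.2) = ∑ u ∈ piece P C (c + v) (c' + v), f u := by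
  apply Finset.sum_nbij' (fun u => u + v.2) (fun u => u - v.2)
  · intro u hu
    rw [mem_piece] at hu ⊢
    exact piece_shift.1 hu
  · intro u hu
    rw [mem_piece] at hu ⊢
    rw [piece_shift, sub_add_cancel]
    exact hu
  · intro u _; simp
  · intro u _; simp
  · intro u _; rfl

lemma compat_shift {P : Par} {C : Set P3} {F : ℤ → P2 → Val} {x : P3 → Dr}
    (h : Compat P C F x) (v : P3) : Compat P (shC v C) (shF v F) (shx v x) := by
  intro c hc c' hc'
  simp only [st_shift, pl_shift]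
  rw [← Finset.mul_sum, ← Finset.mul_sum, sum_piece_shift (fun u => st x (c'.1 + v.1) u),
    sum_piece_shift (fun u => pl (F (c'.1 + v.1)) u)]
  congr 1
  exact h (c + v) hc (c' + v) hc'

lemma isT_shift {x : P3 → Dr} (hx : IsT x) (v : P3) : IsT (shx v x) := by
  intro t u
  have := hx (t + v.1) (u + v.2)
  unfold shx
  simp only
  rw [add_right_comm t, add_right_comm u]
  exact this

theorem X0_shift {P : Par} {x : P3 → Dr} (hx : x ∈ X0 P) (v : P3) : shx v x ∈ X0 P := by
  obtain ⟨hT, C, F, hC, hF, hL, hK⟩ := hx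
  exact ⟨isT_shift hT v, shC v C, shF v F, mis_shift hC v, rule_shift hF v,
    latRule_shift hL v, compat_shift hK v⟩

end Pool.Agent.H47.Dom
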