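import Pool.Agent.H47.Dom.Core

/-!
Exchanging particles: every state on a square can be turned into any other state with the same
number of particles.
-/

namespace Pool.Agent.H47.Dom

lemma opp_opp (δ : Dr) : δ.opp.opp = δ := by cases δ <;> rfl

lemma lv_opp (δ : Dr) : δ.opp.lv = - δ.lv := by cases δ <;> simp [Dr.opp, Dr.lv]

lemma lat_opp {δ : Dr} (h : δ.Lat) : δ.opp.Lat := by
  unfold Dr.Lat at *
  cases δ <;> simp_all [Dr.opp]

lemma lv_ne_zero {δ : Dr} (h : δ.Lat) : δ.lv ≠ 0 := by
  unfold Dr.Lat at h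
  cases δ <;> simp_all [Dr.lv]

lemma sg_lv {δ : Dr} (h : δ.Lat) (t : ℤ) (u : P2) :
    sg (t + (u + δ.lv).1 + (u + δ.lv).2) = - sg (t + u.1 + u.2) := by
  unfold Dr.Lat at h
  have e1 : ∀ n : ℤ, sg (n - 1) = - sg n := fun n => by
    have := sg_succ (n - 1); rw [sub_add_cancel] at this; rw [this]; ring
  cases δ
  · simp_all
  · simp_all
  all_goals
    simp only [Dr.lv, Prod.fst_add, Prod.snd_add, add_zero]
  · rw [← sg_succ]; ring_nf
  · rw [← e1]; ring_nf
  · rw [← sg_succ]; ring_nf
  · rw [← e1]; ring_nf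

lemma hop {B : P2 → Prop} {t : ℤ} {ψ : P2 → ℤ} (hψ : IsS ψ) {δ : Dr} (hδ : δ.Lat) {u : P2}
    (hu : B u) (hu' : B (u + δ.lv)) (h1 : ψ u = - sg (t + u.1 + u.2))
    (h2 : ψ (u + δ.lv) = sg (t + u.1 + u.2)) :
    Reach B t 1 ψ (ψ ∘ Equiv.swap u (u + δ.lv)) := by
  set u' := u + δ.lv with hu'_def
  set ψ' := ψ ∘ Equiv.swap u u' with hψ'_def
  have hne : u' ≠ u := by
    intro h
    apply lv_ne_zero hδ
    have : u + δ.lv = u := h
    simpa using this
  have hS' : IsS ψ' := fun v => hψ _
  have h1' : ψ' u = sg (t + u.1 + u.2) := by simp [hψ'_def, h2]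
  have h2' : ψ' u' = - sg (t + u.1 + u.2) := by simp [hψ'_def, h1]
  have hoth : ∀ v, v ≠ u → v ≠ u' → ψ' v = ψ v := by
    intro v hv hv'
    simp [hψ'_def, Equiv.swap_apply_of_ne_of_ne hv hv']
  have hsu' : sg (t + u'.1 + u'.2) = - sg (t + u.1 + u.2) := sg_lv hδ t u
  have hb : u' + δ.opp.lv = u := by rw [lv_opp, hu'_def]; simp
  have hoL := lat_opp hδ
  set x : P3 → Dr := fun v =>
    if v.1 = t ∧ v.2 = u then δ else if v.1 = t ∧ v.2 = u' then δ.opp
    else if v.1 ≤ t then pas ψ v else pas ψ' v with hx_def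
  have xu : x (t, u) = δ := by simp [hx_def]
  have xu' : x (t, u') = δ.opp := by simp [hx_def, hne]
  have xlt : ∀ r v, r < t → x (r, v) = pas ψ (r, v) := by
    intro r v hr
    have : r ≠ t := by omega
    simp [hx_def, this, hr.le]
  have xgt : ∀ r v, t < r → x (r, v) = pas ψ' (r, v) := by
    intro r v hr
    have : r ≠ t := by omega
    have h' : ¬ r ≤ t := by omega
    simp [hx_def, this, h']
  have xeq : ∀ v, v ≠ u → v ≠ u' → x (t, v) = pas ψ (t, v) := by
    intro v hv hv'
    simp [hx_def, hv, hv']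
  have lat_iff : ∀ r v, (x (r, v)).Lat → r = t ∧ (v = u ∨ v = u') := by
    intro r v h
    by_contra hcon
    rcases lt_trichotomy r t with hr | hr | hr
    · rw [xlt r v hr] at h; exact pas_not_lat _ _ h
    · subst hr
      by_cases hv : v = u
      · exact hcon ⟨rfl, Or.inl hv⟩
      by_cases hv' : v = u'
      · exact hcon ⟨rfl, Or.inr hv'⟩
      rw [xeq v hv hv'] at h; exact pas_not_lat _ _ h
    · rw [xgt r v hr] at h; exact pas_not_lat _ _ h
  have e1 : ∀ (v : P2), sg (t + v.1 + v.2) = - sg (t - 1 + v.1 + v.2) := fun v => by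
    rw [← sg_succ]; ring_nf
  have e2 : ∀ (v : P2), sg (t + 1 + v.1 + v.2) = - sg (t + v.1 + v.2) := fun v => by
    rw [← sg_succ]; ring_nf
  -- neither `u` nor `u'` is covered by a vertical domino in layer `t`
  have dU : ∀ v, v = u ∨ v = u' → ¬ pas ψ (t - 1, v) = .U := by
    intro v hv h
    rw [pas_eq_U] at h
    apply h
    rcases hv with rfl | rfl
    · rw [h1, e1]; ring_nf; rw [pow_two, sg_mul_self]
    · rw [h2, ← neg_neg (sg (t + u.1 + u.2)), ← hsu', e1]; ring_nf; rw [pow_two, sg_mul_self]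
  have dD : ∀ v, v = u ∨ v = u' → ¬ pas ψ' (t + 1, v) = .D := by
    intro v hv h
    rw [pas_eq_D] at h
    rcases hv with rfl | rfl
    · rw [h1', e2] at h
      have := sg_mul_self (t + v.1 + v.2)
      linarith
    · rw [h2', ← hsu', e2] at h
      have := sg_mul_self (t + u'.1 + u'.2)
      linarith
  refine ⟨x, ?_, ?_, ?_, ?_⟩
  · apply isT_of
    · intro r v h
      rcases lt_trichotomy r t with hr | hr | hr
      · rw [xlt r v hr] at h
        by_cases hr1 : r + 1 < t
        · rw [xlt _ v hr1]; exact isT_U (pas_isT hψ) h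
        · have hr2 : r = t - 1 := by omega
          subst hr2
          rw [sub_add_cancel]
          by_cases hv : v = u ∨ v = u'
          · exact absurd h (dU v hv)
          · push Not at hv
            rw [xeq v hv.1 hv.2]
            simpa using isT_U (pas_isT hψ) h
      · subst hr
        by_cases hv : v = u
        · subst hv; rw [xu] at h; exact absurd h hδ.1
        by_cases hv' : v = u'
        · rw [hv', xu'] at h; exact absurd h hoL.1
        rw [xeq v hv hv'] at h
        rw [xgt _ v (by omega)]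
        have := isT_U (pas_isT hψ) h
        rw [pas_eq_D] at this ⊢
        rwa [hoth v hv hv']
      · rw [xgt r v hr] at h
        rw [xgt _ v (by omega)]
        exact isT_U (pas_isT hS') h
    · intro r v h
      rcases lt_trichotomy r t with hr | hr | hr
      · rw [xlt r v hr] at h
        rw [xlt _ v (by omega)]
        exact isT_D (pas_isT hψ) h
      · subst hr
        by_cases hv : v = u
        · subst hv; rw [xu] at h; exact absurd h hδ.2
        by_cases hv' : v = u'
        · rw [hv', xu'] at h; exact absurd h hoL.2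
        rw [xeq v hv hv'] at h
        rw [xlt _ v (by omega)]
        exact isT_D (pas_isT hψ) h
      · rw [xgt r v hr] at h
        by_cases hr1 : t < r - 1
        · rw [xgt _ v hr1]; exact isT_D (pas_isT hS') h
        · have hr2 : r = t + 1 := by omega
          subst hr2
          rw [add_sub_cancel_right]
          by_cases hv : v = u ∨ v = u'
          · exact absurd h (dD v hv)
          · push Not at hv
            rw [xeq v hv.1 hv.2]
            have := isT_D (pas_isT hS') h
            rw [add_sub_cancel_right] at this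
            rw [pas_eq_U] at this ⊢
            rwa [hoth v hv.1 hv.2] at this
    · intro r v h
      obtain ⟨hr, hv⟩ := lat_iff r v h
      subst hr
      rcases hv with rfl | rfl
      · rw [xu]; exact xu'
      · rw [xu', hb, opp_opp]; exact xu
  · intro r v h
    obtain ⟨hr, hv⟩ := lat_iff r v h
    subst hr
    rcases hv with rfl | rfl
    · rw [xu]; exact ⟨le_rfl, by omega, hu, hu'⟩
    · rw [xu', hb]; exact ⟨le_rfl, by omega, hu', hu⟩
  · intro r v hr
    by_cases hr' : r < t
    · rw [← st_pas hψ r v, st_eq_iff, xlt r v hr']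
    · have hr2 : r = t := by omega
      subst hr2
      by_cases hv : v = u
      · subst hv
        unfold st
        rw [xu, if_neg hδ.2, h1]; ring
      by_cases hv' : v = u'
      · rw [hv']
        unfold st
        rw [xu', if_neg hoL.2, h2, hsu']; ring
      rw [← st_pas hψ r v, st_eq_iff, xeq v hv hv']
  · intro r v hr
    rw [← st_pas hS' r v, st_eq_iff, xgt r v (by omega)]

/-- exchange of two adjacent sites, cost 2 -/
lemma swap_adj {B : P2 → Prop} {t : ℤ} {ψ : P2 → ℤ} (hψ : IsS ψ) {δ : Dr} (hδ : δ.Lat) {u : P2}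
    (hu : B u) (hu' : B (u + δ.lv)) :
    Reach B t 2 ψ (ψ ∘ Equiv.swap u (u + δ.lv)) := by
  have hS' : IsS (ψ ∘ Equiv.swap u (u + δ.lv)) := fun v => hψ _
  by_cases heq : ψ u = ψ (u + δ.lv)
  · have : ψ ∘ Equiv.swap u (u + δ.lv) = ψ := by
      funext v
      simp only [Function.comp]
      by_cases h1 : v = u
      · rw [h1, Equiv.swap_apply_left, heq]
      by_cases h2 : v = u + δ.lv
      · rw [h2, Equiv.swap_apply_right, heq]
      rw [Equiv.swap_apply_of_ne_of_ne h1 h2]
    rw [this]
    exact reach_refl hψ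
  · have hneg : ψ (u + δ.lv) = - ψ u := by
      rcases hψ u with h | h <;> rcases hψ (u + δ.lv) with h' | h' <;> rw [h, h'] at heq ⊢ <;>
        simp_all
    have hcase : ψ u = - sg (t + u.1 + u.2) ∨ ψ u = sg (t + u.1 + u.2) := by
      rcases hψ u with h | h <;> rcases sg_or (t + u.1 + u.2) with h' | h' <;> rw [h, h'] <;> simp
    rcases hcase with h | h
    · have := hop (t := t) hψ hδ hu hu' h (by rw [hneg, h]; ring)
      exact reach_mono (by norm_num) (by norm_num) hS' this
    · have e2 : sg (t + 1 + u.1 + u.2) = - sg (t + u.1 + u.2) := by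
        rw [← sg_succ]; ring_nf
      have := hop (t := t + 1) hψ hδ hu hu' (by rw [e2, h]; ring) (by rw [hneg, h, e2])
      have h3 := reach_trans (n := 1) (m := 1) (by norm_num) (by norm_num)
        (reach_refl (B := B) (t := t) hψ) this
      simpa using h3

/-- the square of side `s` with corner `q` -/
def Sq (s : ℤ) (q : P2) (u : P2) : Prop :=
  q.1 ≤ u.1 ∧ u.1 < q.1 + s ∧ q.2 ≤ u.2 ∧ u.2 < q.2 + s

/-- one step towards a target inside a square -/
lemma exists_step {s : ℤ} {q u u' : P2} (hu : Sq s q u) (hu' : Sq s q u') (hne : u ≠ u') :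
    ∃ δ : Dr, δ.Lat ∧ Sq s q (u + δ.lv) ∧
      |(u + δ.lv).1 - u'.1| + |(u + δ.lv).2 - u'.2| = |u.1 - u'.1| + |u.2 - u'.2| - 1 := by
  obtain ⟨a, b⟩ := u
  obtain ⟨a', b'⟩ := u'
  obtain ⟨q1, q2⟩ := q
  unfold Sq at *
  simp only at *
  rcases lt_trichotomy a a' with h | h | h
  · refine ⟨.E, by decide, ?_, ?_⟩
    · simp only [Dr.lv, Prod.mk_add_mk]; omega
    · simp only [Dr.lv, Prod.mk_add_mk]
      rw [abs_of_nonpos (by omega : a + 1 - a' ≤ 0), abs_of_nonpos (by omega : a - a' ≤ 0)]
      simp only [add_zero]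
      ring
  · subst h
    rcases lt_trichotomy b b' with h | h | h
    · refine ⟨.N, by decide, ?_, ?_⟩
      · simp only [Dr.lv, Prod.mk_add_mk]; omega
      · simp only [Dr.lv, Prod.mk_add_mk]
        rw [abs_of_nonpos (by omega : b + 1 - b' ≤ 0), abs_of_nonpos (by omega : b - b' ≤ 0)]
        simp only [add_zero]
        ring
    · subst h; exact absurd rfl hne
    · refine ⟨.S, by decide, ?_, ?_⟩
      · simp only [Dr.lv, Prod.mk_add_mk]; omega
      · simp only [Dr.lv, Prod.mk_add_mk]
        rw [abs_of_nonneg (by omega : 0 ≤ b + -1 - b'), abs_of_nonneg (by omega : 0 ≤ b - b')]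
        simp only [add_zero]
        ring
  · refine ⟨.W, by decide, ?_, ?_⟩
    · simp only [Dr.lv, Prod.mk_add_mk]; omega
    · simp only [Dr.lv, Prod.mk_add_mk]
      rw [abs_of_nonneg (by omega : 0 ≤ a + -1 - a'), abs_of_nonneg (by omega : 0 ≤ a - a')]
      simp only [add_zero]
      ring

/-- exchange of two arbitrary sites of a square -/
lemma swap_any {s : ℤ} {q : P2} : ∀ (n : ℕ) {t : ℤ} {ψ : P2 → ℤ} (_ : IsS ψ) {u u' : P2}
    (_ : Sq s q u) (_ : Sq s q u') (_ : |u.1 - u'.1| + |u.2 - u'.2| ≤ n),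
    Reach (Sq s q) t (4 * n) ψ (ψ ∘ Equiv.swap u u') := by
  intro n
  induction n with
  | zero =>
    intro t ψ hψ u u' hu hu' h
    have h1 : u = u' := by
      have ha := abs_nonneg (u.1 - u'.1)
      have hb := abs_nonneg (u.2 - u'.2)
      have h0 : |u.1 - u'.1| + |u.2 - u'.2| ≤ 0 := by simpa using h
      have h1 : |u.1 - u'.1| = 0 := by omega
      have h2 : |u.2 - u'.2| = 0 := by omega
      rw [abs_eq_zero] at h1 h2
      exact Prod.ext (by omega) (by omega)
    subst h1
    simp only [Equiv.swap_self, Equiv.coe_refl, Function.comp_id]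
    exact reach_refl hψ
  | succ n ih =>
    intro t ψ hψ u u' hu hu' h
    by_cases hne : u = u'
    · subst hne
      simp only [Equiv.swap_self, Equiv.coe_refl, Function.comp_id]
      exact reach_refl hψ
    obtain ⟨δ, hδ, hv, hd⟩ := exists_step hu hu' hne
    set v := u + δ.lv with hv_def
    have huv : u ≠ v := by
      intro h
      apply lv_ne_zero hδ
      have : u = u + δ.lv := h
      simpa using this
    by_cases hvu : v = u'
    · have := swap_adj (t := t) hψ hδ hu (by exact hv)
      rw [← hv_def, hvu] at this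
      exact reach_mono (by norm_num) (by push_cast; omega) (fun _ => hψ _) this
    · have hψ1 : IsS (ψ ∘ Equiv.swap u v) := fun _ => hψ _
      have hψ2 : IsS ((ψ ∘ Equiv.swap u v) ∘ Equiv.swap v u') := fun _ => hψ _
      have r1 : Reach (Sq s q) t 2 ψ (ψ ∘ Equiv.swap u v) := swap_adj hψ hδ hu hv
      have r2 : Reach (Sq s q) (t + 2) (4 * n) (ψ ∘ Equiv.swap u v)
          ((ψ ∘ Equiv.swap u v) ∘ Equiv.swap v u') := by
        apply ih hψ1 hv hu'
        push_cast at h
        omega
      have r3 : Reach (Sq s q) (t + 2 + 4 * n) 2 ((ψ ∘ Equiv.swap u v) ∘ Equiv.swap v u')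
          (((ψ ∘ Equiv.swap u v) ∘ Equiv.swap v u') ∘ Equiv.swap u v) :=
        swap_adj hψ2 hδ hu hv
      have r12 := reach_trans (by norm_num) (by positivity) r1 r2
      rw [add_assoc] at r3
      have hn4 : (0 : ℤ) ≤ 2 + 4 * (n : ℤ) := by positivity
      have r123 := reach_trans hn4 (by norm_num) r12 r3
      have e : ((ψ ∘ Equiv.swap u v) ∘ Equiv.swap v u') ∘ Equiv.swap u v
          = ψ ∘ Equiv.swap u u' := by
        have h5 : Equiv.swap u v * Equiv.swap v u' * Equiv.swap u v = Equiv.swap u u' := by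
          have := Equiv.swap_mul_swap_mul_swap (x := u') (y := v) (z := u) (Ne.symm hvu)
            (Ne.symm hne)
          rw [Equiv.swap_comm v u, Equiv.swap_comm u' v] at this
          exact this
        funext w
        have h6 := congrArg (fun σ : Equiv.Perm P2 => σ w) h5
        simp only [Equiv.Perm.mul_apply] at h6
        simp only [Function.comp_apply]
        rw [← h6]
      rw [e] at r123
      have e2 : (2 + 4 * (n : ℤ) + 2) = 4 * ((n + 1 : ℕ) : ℤ) := by push_cast; ring
      rw [e2] at r123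
      exact r123

/-- the square as a finite set -/
noncomputable def sqF (s : ℤ) (q : P2) : Finset P2 := Finset.Ico q.1 (q.1 + s) ×ˢ Finset.Ico q.2 (q.2 + s)

lemma mem_sqF {s : ℤ} {q u : P2} : u ∈ sqF s q ↔ Sq s q u := by
  simp [sqF, Sq, and_assoc]

/-- any two states on a square with equal sums are joined -/
lemma reach_all {s : ℤ} (hs : 0 ≤ s) {q : P2} : ∀ (m : ℕ) {t : ℤ} {ψ ψ' : P2 → ℤ} (_ : IsS ψ)
    (_ : IsS ψ') (_ : ∀ u, ¬ Sq s q u → ψ u = ψ' u)
    (_ : ∑ u ∈ sqF s q, ψ u = ∑ u ∈ sqF s q, ψ' u)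
    (_ : ((sqF s q).filter (fun u => ψ u ≠ ψ' u)).card ≤ m),
    Reach (Sq s q) t (8 * s * m) ψ ψ' := by
  intro m
  induction m with
  | zero =>
    intro t ψ ψ' hψ hψ' hoff hsum hcard
    have h0 : (sqF s q).filter (fun u => ψ u ≠ ψ' u) = ∅ := by
      rw [← Finset.card_eq_zero]; omega
    have : ψ = ψ' := by
      funext u
      by_cases hu : Sq s q u
      · by_contra hne
        have : u ∈ (sqF s q).filter (fun u => ψ u ≠ ψ' u) :=
          Finset.mem_filter.2 ⟨mem_sqF.2 hu, hne⟩
        rw [h0] at this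
        exact absurd this (Finset.notMem_empty _)
      · exact hoff u hu
    rw [this]
    exact reach_refl hψ'
  | succ m ih =>
    intro t ψ ψ' hψ hψ' hoff hsum hcard
    by_cases h0 : (sqF s q).filter (fun u => ψ u ≠ ψ' u) = ∅
    · have : ψ = ψ' := by
        funext u
        by_cases hu : Sq s q u
        · by_contra hne
          have : u ∈ (sqF s q).filter (fun u => ψ u ≠ ψ' u) :=
            Finset.mem_filter.2 ⟨mem_sqF.2 hu, hne⟩
          rw [h0] at this
          exact absurd this (Finset.notMem_empty _)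
        · exact hoff u hu
      rw [this]
      exact reach_refl hψ'
    · obtain ⟨w, hw⟩ := Finset.nonempty_iff_ne_empty.2 h0
      rw [Finset.mem_filter] at hw
      have hsum0 : ∑ u ∈ sqF s q, (ψ u - ψ' u) = 0 := by
        rw [Finset.sum_sub_distrib, hsum]; ring
      have hsum0' : ∑ u ∈ sqF s q, (ψ' u - ψ u) = 0 := by
        rw [Finset.sum_sub_distrib, hsum]; ring
      obtain ⟨u, hu, hupos⟩ := Finset.exists_pos_of_sum_zero_of_exists_nonzero _ hsum0
        ⟨w, hw.1, sub_ne_zero.2 hw.2⟩
      obtain ⟨u', hu', hu'pos⟩ := Finset.exists_pos_of_sum_zero_of_exists_nonzero _ hsum0'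
        ⟨w, hw.1, sub_ne_zero.2 (Ne.symm hw.2)⟩
      have hu1 : ψ u = 1 ∧ ψ' u = -1 := by
        rcases hψ u with h | h <;> rcases hψ' u with h' | h' <;> rw [h, h'] at hupos <;>
          simp_all
      have hu2 : ψ u' = -1 ∧ ψ' u' = 1 := by
        rcases hψ u' with h | h <;> rcases hψ' u' with h' | h' <;> rw [h, h'] at hu'pos <;>
          simp_all
      have hne : u ≠ u' := by
        intro h; rw [h] at hu1; rw [hu1.1] at hu2; norm_num at hu2
      rw [mem_sqF] at hu hu'
      set ψ1 := ψ ∘ Equiv.swap u u' with hψ1_def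
      have hS1 : IsS ψ1 := fun _ => hψ _
      have hn : |u.1 - u'.1| + |u.2 - u'.2| ≤ ((2 * s).toNat : ℤ) := by
        rw [Int.toNat_of_nonneg (by omega)]
        obtain ⟨a, b⟩ := u
        obtain ⟨a', b'⟩ := u'
        unfold Sq at hu hu'
        simp only at *
        have h1 : |a - a'| ≤ s := abs_le.2 (by omega)
        have h2 : |b - b'| ≤ s := abs_le.2 (by omega)
        omega
      have r1 := swap_any (s := s) (q := q) (2 * s).toNat (t := t) hψ hu hu' hn
      rw [Int.toNat_of_nonneg (by omega), ← hψ1_def] at r1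
      have hoth : ∀ v, v ≠ u → v ≠ u' → ψ1 v = ψ v := by
        intro v hv hv'
        simp [hψ1_def, Equiv.swap_apply_of_ne_of_ne hv hv']
      have hψ1u : ψ1 u = -1 := by simp [hψ1_def, hu2.1]
      have hψ1u' : ψ1 u' = 1 := by simp [hψ1_def, hu1.1]
      have hoff1 : ∀ v, ¬ Sq s q v → ψ1 v = ψ' v := by
        intro v hv
        rw [hoth v (by rintro rfl; exact hv hu) (by rintro rfl; exact hv hu')]
        exact hoff v hv
      have hsum1 : ∑ v ∈ sqF s q, ψ1 v = ∑ v ∈ sqF s q, ψ v := by
        apply Equiv.Perm.sum_comp (Equiv.swap u u') (sqF s q) ψ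
        intro v hv
        simp only [Set.mem_ofPred_eq, ne_eq] at hv
        by_cases h1 : v = u
        · rw [h1]; exact mem_sqF.2 hu
        by_cases h2 : v = u'
        · rw [h2]; exact mem_sqF.2 hu'
        exact absurd (Equiv.swap_apply_of_ne_of_ne h1 h2) hv
      have hcard1 : ((sqF s q).filter (fun v => ψ1 v ≠ ψ' v)).card ≤ m := by
        have hsub : (sqF s q).filter (fun v => ψ1 v ≠ ψ' v) ⊆
            ((sqF s q).filter (fun v => ψ v ≠ ψ' v)).erase u := by
          intro v hv
          rw [Finset.mem_filter] at hv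
          rw [Finset.mem_erase, Finset.mem_filter]
          have hvu : v ≠ u := by
            rintro rfl; exact hv.2 (by rw [hψ1u, hu1.2])
          have hvu' : v ≠ u' := by
            rintro rfl; exact hv.2 (by rw [hψ1u', hu2.2])
          refine ⟨hvu, hv.1, ?_⟩
          rw [← hoth v hvu hvu']
          exact hv.2
        have h2 := Finset.card_le_card hsub
        have h3 : u ∈ (sqF s q).filter (fun v => ψ v ≠ ψ' v) := by
          rw [Finset.mem_filter]
          exact ⟨mem_sqF.2 hu, by rw [hu1.1, hu1.2]; norm_num⟩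
        rw [Finset.card_erase_of_mem h3] at h2
        omega
      have r2 := ih (t := t + 4 * (2 * s)) hS1 hψ' hoff1 (by rw [hsum1, hsum]) hcard1
      have h8 : (0 : ℤ) ≤ 4 * (2 * s) := by omega
      have h9 : (0 : ℤ) ≤ 8 * s * m := by positivity
      have r3 := reach_trans h8 h9 r1 r2
      have e : 4 * (2 * s) + 8 * s * (m : ℤ) = 8 * s * ((m + 1 : ℕ) : ℤ) := by push_cast; ring
      rw [e] at r3
      exact r3

/-- Lemma E: `8 s³` time steps suffice. -/
lemma reach_square {s : ℤ} (hs : 0 ≤ s) {q : P2} {t a : ℤ} (ha : 8 * s ^ 3 ≤ a) {ψ ψ' : P2 → ℤ}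
    (hψ : IsS ψ) (hψ' : IsS ψ') (hoff : ∀ u, ¬ Sq s q u → ψ u = ψ' u)
    (hsum : ∑ u ∈ sqF s q, ψ u = ∑ u ∈ sqF s q, ψ' u) : Reach (Sq s q) t a ψ ψ' := by
  have hcard : ((sqF s q).filter (fun u => ψ u ≠ ψ' u)).card ≤ (s * s).toNat := by
    refine (Finset.card_le_card (Finset.filter_subset _ _)).trans ?_
    have h1 : (sqF s q).card = s.toNat * s.toNat := by
      simp [sqF, Finset.card_product]
    rw [h1]
    have : ((s.toNat * s.toNat : ℕ) : ℤ) = ((s * s).toNat : ℤ) := by
      push_cast
      rw [Int.toNat_of_nonneg hs, Int.toNat_of_nonneg (mul_nonneg hs hs)]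
    exact_mod_cast this.le
  have := reach_all hs (s * s).toNat (t := t) hψ hψ' hoff hsum hcard
  rw [Int.toNat_of_nonneg (mul_nonneg hs hs)] at this
  refine reach_mono (by positivity) ?_ hψ' this
  nlinarith

end Pool.Agent.H47.Dom
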